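import Pool.Agent.WMN.Defs

/-!
Proof idea for `WM_dy` (additive notation, subgroups of Z[1/2]): let `N k` be antitone.
If some `N m = 0` it is clear (index 1 from then on). Otherwise all `N k ≠ 0`.
Call `B` bounded if `∃ s, ∀ b ∈ B, b * 2 ^ s` is an integer.
(1) `C` bounded, `B ≤ C`, `B ≠ 0`: finite index (C embeds into 2^-s Z, `B` contains a nonzero
    element `d`, the quotient is a quotient of a subgroup of Z / d').
(2) `B` not bounded: `B` has finite index in Dy: `d' Dy ≤ B` for an odd `d'`, and Dy / d' Dy has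
    at most `d'` elements.
Either all `N k` are not bounded (all have finite index in Dy) or some `N m` is bounded (use (1)).
-/

set_option autoImplicit false

namespace Pool.Agent.WMN

/-- A subgroup with finitely many representatives has finite relative index. -/
theorem relIndex_ne_zero_of_reps {G : Type} [Group G] (H K : Subgroup G) (T : Set G)
    (hT : T.Finite) (h : ∀ a ∈ K, ∃ t ∈ T, t⁻¹ * a ∈ H) : H.relIndex K ≠ 0 := by
  rw [Subgroup.relIndex, Subgroup.index_ne_zero_iff_finite]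
  have hf : Finite T := hT
  choose t ht ht' using h
  refine Finite.of_injective (β := T)
    (fun q : K ⧸ H.subgroupOf K => ⟨t (Quotient.out q : K) (Quotient.out q : K).2,
      ht _ _⟩) ?_
  intro q q' hq
  have hq' : t (Quotient.out q : K) (Quotient.out q : K).2 =
      t (Quotient.out q' : K) (Quotient.out q' : K).2 := congrArg Subtype.val hq
  have h1 := ht' (Quotient.out q : K) (Quotient.out q : K).2
  have h2 := ht' (Quotient.out q' : K) (Quotient.out q' : K).2
  rw [← hq'] at h2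
  have h3 : ((Quotient.out q : K) : G)⁻¹ * ((Quotient.out q' : K) : G) ∈ H := by
    have h4 := H.mul_mem (H.inv_mem h1) h2
    have h5 : (t (Quotient.out q : K) (Quotient.out q : K).2)⁻¹ * ((Quotient.out q : K) : G) =
        (t (Quotient.out q : K) (Quotient.out q : K).2)⁻¹ * ((Quotient.out q : K) : G) := rfl
    simpa [mul_assoc] using h4
  rw [← Quotient.out_eq q, ← Quotient.out_eq q']
  refine (QuotientGroup.eq).2 ?_
  rw [Subgroup.mem_subgroupOf]
  exact h3

/-- The end of a chain which reaches the trivial subgroup. -/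
theorem WM_of_cases {G : Type} [Group G]
    (h : ∀ N : ℕ → Subgroup G, Antitone N → (∀ k, N k ≠ ⊥) →
      ∃ m : ℕ, ∀ k : ℕ, m ≤ k → (N (k + 1)).relIndex (N k) ≠ 0) : WM G := by
  intro N hN
  by_cases h0 : ∀ k, N k ≠ ⊥
  · exact h N hN h0
  · push Not at h0
    obtain ⟨m, hm⟩ := h0
    refine ⟨m, fun k hk => ?_⟩
    have h1 : N k = ⊥ := le_bot_iff.1 (hm ▸ hN hk)
    have h2 : N (k + 1) = ⊥ := le_bot_iff.1 (h1 ▸ hN (Nat.le_succ k))
    rw [h1, h2, Subgroup.relIndex_self]
    exact one_ne_zero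

theorem WM_int : WM (Multiplicative ℤ) := by
  refine WM_of_cases fun N _ h0 => ⟨0, fun k _ => ?_⟩
  obtain ⟨x, hx, hx1⟩ := (Subgroup.bot_or_exists_ne_one (N (k + 1))).resolve_left (h0 _)
  have hd : Multiplicative.toAdd x ≠ 0 := fun h => hx1 (by
    rw [← ofAdd_toAdd x, h]; rfl)
  refine relIndex_ne_zero_of_reps _ _
    ((fun r : ℤ => Multiplicative.ofAdd r) '' Set.Icc 0 |Multiplicative.toAdd x|)
    ((Set.finite_Icc _ _).image _) ?_
  intro a _
  refine ⟨Multiplicative.ofAdd (Multiplicative.toAdd a % Multiplicative.toAdd x),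
    ⟨_, ⟨Int.emod_nonneg _ hd, (Int.emod_lt_abs _ hd).le⟩, rfl⟩, ?_⟩
  have h1 : (Multiplicative.ofAdd (Multiplicative.toAdd a % Multiplicative.toAdd x))⁻¹ * a =
      x ^ (Multiplicative.toAdd a / Multiplicative.toAdd x) := by
    apply Multiplicative.toAdd.injective
    rw [toAdd_mul, toAdd_inv, toAdd_ofAdd, toAdd_zpow, smul_eq_mul]
    have := Int.emod_add_mul_ediv (Multiplicative.toAdd a) (Multiplicative.toAdd x)
    linarith
  rw [h1]
  exact Subgroup.zpow_mem _ hx _

/-- A subgroup of the dyadic rationals with bounded denominators. -/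
def DBdd (B : Subgroup (Multiplicative Dy)) : Prop :=
  ∃ s : ℕ, ∀ x : Dy, Multiplicative.ofAdd x ∈ B → ∃ z : ℤ, (x : ℚ) * 2 ^ s = z

theorem dy_zsmul_mem {B : Subgroup (Multiplicative Dy)} {x : Dy}
    (hx : Multiplicative.ofAdd x ∈ B) (z : ℤ) : Multiplicative.ofAdd ((z : Dy) * x) ∈ B := by
  have h1 : Multiplicative.ofAdd ((z : Dy) * x) = Multiplicative.ofAdd x ^ z := by
    rw [← ofAdd_zsmul, zsmul_eq_mul]
  rw [h1]
  exact Subgroup.zpow_mem _ hx _

theorem coeZ (z : ℤ) : (((z : ℤ) : Dy) : ℚ) = z := by push_cast; rfl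

/-- The dyadic rational `r / 2 ^ s`. -/
def dq (r : ℤ) (s : ℕ) : Dy := (r : Dy) * tp (-(s : ℤ))

theorem coe_dq (r : ℤ) (s : ℕ) : ((dq r s : Dy) : ℚ) = r / 2 ^ s := by
  rw [dq, Subring.coe_mul, coe_tp, zpow_neg, zpow_natCast]
  push_cast
  rfl

theorem exists_dq (x : Dy) : ∃ (z : ℤ) (n : ℕ), x = dq z n := by
  obtain ⟨n, z, h⟩ := x.2
  refine ⟨z, n, ?_⟩
  apply Subtype.ext
  rw [coe_dq, ← h]
  field_simp

theorem dy_relIndex_bdd {B C : Subgroup (Multiplicative Dy)} (hC : DBdd C) (hBC : B ≤ C)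
    (hB : B ≠ ⊥) : B.relIndex C ≠ 0 := by
  obtain ⟨s, hs⟩ := hC
  obtain ⟨y, hy, hy1⟩ := (Subgroup.bot_or_exists_ne_one B).resolve_left hB
  have hyn : Multiplicative.toAdd y ≠ 0 := fun h => hy1 (by
    rw [← ofAdd_toAdd y, h]; rfl)
  have hy' : Multiplicative.ofAdd (Multiplicative.toAdd y) ∈ B := by rwa [ofAdd_toAdd]
  obtain ⟨D, hD⟩ := hs (Multiplicative.toAdd y) (hBC hy')
  generalize hyd : Multiplicative.toAdd y = d at hyn hy' hD
  have hdq : (d : ℚ) ≠ 0 := by
    intro h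
    apply hyn
    exact Subtype.ext h
  have hD0 : D ≠ 0 := by
    rintro rfl
    apply hdq
    have h2 : (2 : ℚ) ^ s ≠ 0 := by positivity
    have h3 : (d : ℚ) * 2 ^ s = 0 := by simpa using hD
    exact (mul_eq_zero.1 h3).resolve_right h2
  refine relIndex_ne_zero_of_reps _ _
    ((fun r : ℤ => Multiplicative.ofAdd (dq r s)) '' Set.Icc 0 |D|)
    ((Set.finite_Icc _ _).image _) ?_
  intro a ha
  obtain ⟨z, hz⟩ := hs (Multiplicative.toAdd a) (by rwa [ofAdd_toAdd])
  refine ⟨Multiplicative.ofAdd (dq (z % D) s),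
    ⟨_, ⟨Int.emod_nonneg _ hD0, (Int.emod_lt_abs _ hD0).le⟩, rfl⟩, ?_⟩
  have h1 : (Multiplicative.ofAdd (dq (z % D) s))⁻¹ * a =
      Multiplicative.ofAdd (((z / D : ℤ) : Dy) * d) := by
    apply Multiplicative.toAdd.injective
    rw [toAdd_mul, toAdd_inv, toAdd_ofAdd, toAdd_ofAdd]
    apply Subtype.ext
    have h2 : ((Multiplicative.toAdd a : Dy) : ℚ) = z / 2 ^ s := by
      rw [← hz]; field_simp
    have h3 : (d : ℚ) = D / 2 ^ s := by
      rw [← hD]; field_simp
    have h4 : ((z % D : ℤ) : ℚ) + D * ((z / D : ℤ) : ℚ) = z := by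
      exact_mod_cast Int.emod_add_mul_ediv z D
    rw [Subring.coe_add, Subring.coe_neg, coe_dq, Subring.coe_mul, coeZ, h2, h3, ← h4]
    field_simp
    ring
  rw [h1]
  exact dy_zsmul_mem hy' _

theorem dy_relIndex_not_bdd {B C : Subgroup (Multiplicative Dy)} (hB : ¬ DBdd B)
    (hB0 : B ≠ ⊥) : B.relIndex C ≠ 0 := by
  -- a nonzero integer in `B`
  obtain ⟨y, hy, hy1⟩ := (Subgroup.bot_or_exists_ne_one B).resolve_left hB0
  have hyn : Multiplicative.toAdd y ≠ 0 := fun h => hy1 (by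
    rw [← ofAdd_toAdd y, h]; rfl)
  have hy' : Multiplicative.ofAdd (Multiplicative.toAdd y) ∈ B := by rwa [ofAdd_toAdd]
  obtain ⟨z, n, hz⟩ := exists_dq (Multiplicative.toAdd y)
  have hz0 : z ≠ 0 := by
    rintro rfl
    apply hyn
    rw [hz]
    apply Subtype.ext
    rw [coe_dq]
    simp
  have hzB : Multiplicative.ofAdd ((z : Dy)) ∈ B := by
    have h1 := dy_zsmul_mem hy' (2 ^ n)
    have h2 : (((2 ^ n : ℤ)) : Dy) * Multiplicative.toAdd y = (z : Dy) := by
      apply Subtype.ext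
      rw [Subring.coe_mul, hz, coe_dq, coeZ, coeZ]
      push_cast
      field_simp
    rwa [h2] at h1
  -- the odd part
  obtain ⟨j, D, hDodd, hzD⟩ : ∃ (j : ℕ) (D : ℤ), Odd D ∧ z = 2 ^ j * D := by
    obtain ⟨j, D, hD, h⟩ := Nat.exists_eq_two_pow_mul_odd (n := z.natAbs) (by omega)
    rcases Int.natAbs_eq z with h1 | h1
    · refine ⟨j, D, ?_, ?_⟩
      · exact_mod_cast hD
      · rw [h1, h]; push_cast; ring
    · refine ⟨j, -D, ?_, ?_⟩
      · rw [odd_neg]; exact_mod_cast hD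
      · rw [h1, h]; push_cast; ring
  have hD0 : D ≠ 0 := by
    rintro rfl
    simp at hzD
    exact hz0 hzD
  -- all `D / 2 ^ m` are in `B`
  have key : ∀ m : ℕ, Multiplicative.ofAdd (dq D m) ∈ B := by
    intro m
    have h1 : ∃ x : Dy, Multiplicative.ofAdd x ∈ B ∧ ∀ w : ℤ, (x : ℚ) * 2 ^ m ≠ w := by
      by_contra h
      push Not at h
      exact hB ⟨m, h⟩
    obtain ⟨x, hxB, hx⟩ := h1
    have hex : ∃ r : ℕ, ∃ w : ℤ, (x : ℚ) * 2 ^ r = w := x.2
    classical
    obtain ⟨u, hu⟩ := Nat.find_spec hex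
    have hmin := fun r h => Nat.find_min (H := hex) (m := r) h
    generalize Nat.find hex = r at hu hmin
    have hmr : m < r := by
      by_contra h
      push Not at h
      apply hx (u * 2 ^ (m - r))
      push_cast
      rw [← hu, mul_assoc, ← pow_add]
      congr 2
      omega
    have huodd : Odd u := by
      by_contra h
      rw [Int.not_odd_iff_even] at h
      obtain ⟨v, hv⟩ := h
      apply hmin (r - 1) (by omega)
      refine ⟨v, ?_⟩
      have h2 : (2 : ℚ) ^ r = 2 ^ (r - 1) * 2 := by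
        rw [← pow_succ]; congr 1; omega
      rw [h2, hv] at hu
      push_cast at hu
      linarith
    -- `u / 2 ^ m` is in `B`
    have h3 : Multiplicative.ofAdd (dq u m) ∈ B := by
      have h4 := dy_zsmul_mem hxB (2 ^ (r - m))
      have h5 : (((2 ^ (r - m) : ℤ)) : Dy) * x = dq u m := by
        apply Subtype.ext
        rw [Subring.coe_mul, coe_dq, coeZ, ← hu]
        push_cast
        rw [eq_div_iff (by positivity)]
        have h6 : (2 : ℚ) ^ r = 2 ^ (r - m) * 2 ^ m := by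
          rw [← pow_add]; congr 1; omega
        rw [h6]
        ring
      rwa [h5] at h4
    have hcop : IsCoprime u ((2 : ℤ) ^ (j + m)) := by
      apply IsCoprime.pow_right
      rw [Int.isCoprime_iff_gcd_eq_one]
      obtain ⟨v, hv⟩ := huodd
      have : IsCoprime u 2 := ⟨1, -v, by rw [hv]; ring⟩
      exact Int.isCoprime_iff_gcd_eq_one.1 this
    obtain ⟨α, β, hαβ⟩ := hcop
    have h7 := B.mul_mem (dy_zsmul_mem h3 (α * D)) (dy_zsmul_mem hzB β)
    have h8 : Multiplicative.ofAdd (((α * D : ℤ) : Dy) * dq u m) *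
        Multiplicative.ofAdd (((β : ℤ) : Dy) * (z : Dy)) = Multiplicative.ofAdd (dq D m) := by
      rw [← ofAdd_add]
      congr 1
      apply Subtype.ext
      rw [Subring.coe_add, Subring.coe_mul, Subring.coe_mul, coe_dq, coe_dq, coeZ, coeZ, coeZ, hzD]
      have h9 : (α : ℚ) * u + β * 2 ^ (j + m) = 1 := by exact_mod_cast hαβ
      push_cast
      rw [eq_div_iff (by positivity)]
      have h10 : (α * D * (u / 2 ^ m) + β * (2 ^ j * D)) * 2 ^ m =
          D * ((α : ℚ) * u + β * 2 ^ (j + m)) := by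
        rw [pow_add]
        field_simp
      rw [h10, h9, mul_one]
    rwa [h8] at h7
  refine relIndex_ne_zero_of_reps _ _
    ((fun r : ℤ => Multiplicative.ofAdd ((r : Dy))) '' Set.Icc 0 |D|)
    ((Set.finite_Icc _ _).image _) ?_
  intro a _
  obtain ⟨w, m, ha⟩ := exists_dq (Multiplicative.toAdd a)
  have hcop : IsCoprime ((2 : ℤ) ^ m) D := by
    apply IsCoprime.pow_left
    obtain ⟨v, hv⟩ := hDodd
    exact ⟨-v, 1, by rw [hv]; ring⟩
  obtain ⟨α, β, hαβ⟩ := hcop
  refine ⟨Multiplicative.ofAdd (((α * w % D : ℤ) : Dy)),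
    ⟨_, ⟨Int.emod_nonneg _ hD0, (Int.emod_lt_abs _ hD0).le⟩, rfl⟩, ?_⟩
  have h1 := B.mul_mem (dy_zsmul_mem (key m) (β * w)) (dy_zsmul_mem (key 0) (α * w / D))
  have h2 : Multiplicative.ofAdd (((β * w : ℤ) : Dy) * dq D m) *
      Multiplicative.ofAdd (((α * w / D : ℤ) : Dy) * dq D 0) =
      (Multiplicative.ofAdd (((α * w % D : ℤ) : Dy)))⁻¹ * a := by
    apply Multiplicative.toAdd.injective
    rw [toAdd_mul, toAdd_mul, toAdd_inv, toAdd_ofAdd, toAdd_ofAdd, toAdd_ofAdd, ha]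
    apply Subtype.ext
    rw [Subring.coe_add, Subring.coe_add, Subring.coe_neg, Subring.coe_mul, Subring.coe_mul,
      coe_dq, coe_dq, coe_dq]
    have h4 : ((α * w % D : ℤ) : ℚ) + D * ((α * w / D : ℤ) : ℚ) = α * w := by
      exact_mod_cast Int.emod_add_mul_ediv (α * w) D
    have h5 : (α : ℚ) * 2 ^ m + β * D = 1 := by exact_mod_cast hαβ
    rw [coeZ, coeZ, coeZ]
    push_cast
    have h9 : (w : ℚ) / 2 ^ m = α * w + β * w * D / 2 ^ m := by
      rw [div_eq_iff (by positivity)]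
      have : ((α : ℚ) * w + β * w * D / 2 ^ m) * 2 ^ m = w * (α * 2 ^ m + β * D) := by
        field_simp
      rw [this, h5, mul_one]
    rw [h9, ← h4]
    ring
  rwa [h2] at h1

theorem WM_dy : WM (Multiplicative Dy) := by
  refine WM_of_cases fun N hN h0 => ?_
  by_cases h : ∀ k, ¬ DBdd (N k)
  · exact ⟨0, fun k _ => dy_relIndex_not_bdd (h _) (h0 _)⟩
  · push Not at h
    obtain ⟨m, s, hs⟩ := h
    refine ⟨m, fun k hk => dy_relIndex_bdd ⟨s, fun x hx => hs x (hN hk hx)⟩
      (hN (Nat.le_succ k)) (h0 _)⟩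

end Pool.Agent.WMN
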