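import Pool.Agent.WMN.Index
import Pool.Agent.WMN.Dyadic

/-!
Chain of homomorphisms: `k : Gam → Z`; on its kernel `b` is a homomorphism to `Dy`; on the
kernel of that, `c` is a homomorphism to `Dy`; on the kernel of that, `a` is injective to `Dy`.
-/

set_option autoImplicit false

namespace Pool.Agent.WMN

namespace Gam

/-- the homomorphism `k` -/
def kH : Gam →* Multiplicative ℤ where
  toFun x := Multiplicative.ofAdd x.k
  map_one' := rfl
  map_mul' _ _ := rfl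

theorem mem_kH (x : Gam) : x ∈ kH.ker ↔ x.k = 0 := Iff.rfl

/-- `b` on the kernel of `k` -/
def bH : kH.ker →* Multiplicative Dy where
  toFun x := Multiplicative.ofAdd x.1.b
  map_one' := rfl
  map_mul' x y := by
    have hx : x.1.k = 0 := (mem_kH _).1 x.2
    apply Multiplicative.toAdd.injective
    show (x.1 * y.1).b = x.1.b + y.1.b
    rw [mul_b, hx, tp_zero, one_mul, add_comm]

theorem mem_bH (x : kH.ker) : x ∈ bH.ker ↔ x.1.b = 0 := Iff.rfl

/-- `c` on the kernel of `b` -/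
def cH : bH.ker →* Multiplicative Dy where
  toFun x := Multiplicative.ofAdd x.1.1.c
  map_one' := rfl
  map_mul' x y := by
    have hy : y.1.1.k = 0 := (mem_kH _).1 y.1.2
    apply Multiplicative.toAdd.injective
    show (x.1.1 * y.1.1).c = x.1.1.c + y.1.1.c
    rw [mul_c, hy, tp_zero, one_mul, add_comm]

theorem mem_cH (x : bH.ker) : x ∈ cH.ker ↔ x.1.1.c = 0 := Iff.rfl

/-- `a` on the kernel of `c` -/
def aH : cH.ker →* Multiplicative Dy where
  toFun x := Multiplicative.ofAdd x.1.1.1.a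
  map_one' := rfl
  map_mul' x y := by
    have hx : x.1.1.1.c = 0 := (mem_cH _).1 x.2
    apply Multiplicative.toAdd.injective
    show (x.1.1.1 * y.1.1.1).a = x.1.1.1.a + y.1.1.1.a
    rw [mul_a, hx, zero_mul, add_zero]

theorem aH_inj : Function.Injective aH := by
  intro x y h
  apply Subtype.ext
  apply Subtype.ext
  apply Subtype.ext
  have h' : x.1.1.1.a = y.1.1.1.a := Multiplicative.ofAdd.injective h
  refine Gam.ext ?_ h' ?_ ?_
  · rw [(mem_kH _).1 x.1.1.2, (mem_kH _).1 y.1.1.2]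
  · rw [(mem_bH _).1 x.1.2, (mem_bH _).1 y.1.2]
  · rw [(mem_cH _).1 x.2, (mem_cH _).1 y.2]

end Gam

theorem Gam.solvable : IsSolvable Gam := by
  have s3 : Group.IsSolvable Gam.cH.ker := Group.isSolvable_of_isSolvable_injective Gam.aH_inj
  have s2 : Group.IsSolvable Gam.bH.ker :=
    Group.isSolvable_of_ker_le_range Gam.cH.ker.subtype Gam.cH (by rw [Subgroup.range_subtype])
  have s1 : Group.IsSolvable Gam.kH.ker :=
    Group.isSolvable_of_ker_le_range Gam.bH.ker.subtype Gam.bH (by rw [Subgroup.range_subtype])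
  exact Group.isSolvable_of_ker_le_range Gam.kH.ker.subtype Gam.kH
    (by rw [Subgroup.range_subtype])

theorem dy_torsionFree (x : Multiplicative Dy) (n : ℕ) (hn : 0 < n) (h : x ^ n = 1) : x = 1 := by
  have h1 : n • x.toAdd = 0 := h
  have h2 : ((n • x.toAdd : Dy) : ℚ) = 0 := by rw [h1]; rfl
  rw [nsmul_eq_mul] at h2
  push_cast at h2
  rcases mul_eq_zero.1 h2 with h3 | h3
  · exact absurd (Nat.cast_eq_zero.1 h3) hn.ne'
  · exact Subtype.ext h3

theorem Gam.torsionFree (g : Gam) (n : ℕ) (hn : 0 < n) (h : g ^ n = 1) : g = 1 := by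
  have hk : g.k = 0 := by
    have h1 : Gam.kH g ^ n = 1 := by rw [← map_pow, h, map_one]
    have h2 : n • (Gam.kH g).toAdd = 0 := h1
    rw [nsmul_eq_mul] at h2
    rcases mul_eq_zero.1 h2 with h3 | h3
    · exact absurd (by exact_mod_cast h3) hn.ne'
    · exact h3
  have e1 : (⟨g, (Gam.mem_kH g).2 hk⟩ : Gam.kH.ker) ^ n = 1 := Subtype.ext h
  have hb : g.b = 0 :=
    dy_torsionFree (Gam.bH ⟨g, (Gam.mem_kH g).2 hk⟩) n hn (by rw [← map_pow, e1, map_one])
  have e2 : (⟨⟨g, (Gam.mem_kH g).2 hk⟩, (Gam.mem_bH _).2 hb⟩ : Gam.bH.ker) ^ n = 1 :=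
    Subtype.ext e1
  have hc : g.c = 0 :=
    dy_torsionFree (Gam.cH ⟨⟨g, (Gam.mem_kH g).2 hk⟩, (Gam.mem_bH _).2 hb⟩) n hn
      (by rw [← map_pow, e2, map_one])
  have e3 : (⟨⟨⟨g, (Gam.mem_kH g).2 hk⟩, (Gam.mem_bH _).2 hb⟩, (Gam.mem_cH _).2 hc⟩ :
      Gam.cH.ker) ^ n = 1 := Subtype.ext e2
  have ha : g.a = 0 :=
    dy_torsionFree (Gam.aH ⟨⟨⟨g, (Gam.mem_kH g).2 hk⟩, (Gam.mem_bH _).2 hb⟩,
      (Gam.mem_cH _).2 hc⟩) n hn (by rw [← map_pow, e3, map_one])
  exact Gam.ext hk ha hb hc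

theorem Gam.wm : WM Gam :=
  WM.of_ker Gam.kH (WM.of_ker Gam.bH (WM.of_ker Gam.cH (WM.of_injective Gam.aH Gam.aH_inj WM_dy)
    WM_dy) WM_dy) WM_int

end Pool.Agent.WMN
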