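import Pool.Agent.WMN.Defs

set_option autoImplicit false

namespace Pool.Agent.WMN

open Complex

/-- The character `q ↦ exp (2 π i q)`. -/
noncomputable def psi (q : ℚ) : ℂ := Complex.exp (2 * Real.pi * Complex.I * (q : ℂ))

theorem psi_add (p q : ℚ) : psi (p + q) = psi p * psi q := by
  unfold psi
  rw [← Complex.exp_add]
  congr 1
  push_cast; ring

theorem psi_zero : psi 0 = 1 := by simp [psi]

theorem psi_int (z : ℤ) : psi z = 1 := by
  unfold psi
  rw [Complex.exp_eq_one_iff]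
  exact ⟨z, by push_cast; ring⟩

theorem psi_eq_one {q : ℚ} (h : psi q = 1) : ∃ z : ℤ, q = z := by
  unfold psi at h
  rw [Complex.exp_eq_one_iff] at h
  obtain ⟨n, hn⟩ := h
  refine ⟨n, ?_⟩
  have h2 : (2 * Real.pi * Complex.I : ℂ) ≠ 0 := by
    simp [Complex.I_ne_zero, Real.pi_ne_zero]
  have h3 : ((q : ℚ) : ℂ) = (n : ℂ) := by
    apply mul_left_cancel₀ h2
    rw [hn]; ring
  exact_mod_cast h3

theorem psi_nat_mul (j : ℕ) (q : ℚ) : psi (j * q) = psi q ^ j := by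
  induction j with
  | zero => simp [psi_zero]
  | succ j ih =>
    rw [pow_succ, ← ih, ← psi_add]
    congr 1
    push_cast; ring

/-- the sum of the character over `j < N` vanishes at non-integral `q` with `N q` integral. -/
theorem psi_sum_zero (N : ℕ) (q : ℚ) (h1 : ¬ ∃ z : ℤ, q = z) (h2 : ∃ z : ℤ, (N : ℚ) * q = z) :
    ∑ j ∈ Finset.range N, psi (j * q) = 0 := by
  have hq : psi q ≠ 1 := fun h => h1 (psi_eq_one h)
  have hs : ∑ j ∈ Finset.range N, psi (j * q) = ∑ j ∈ Finset.range N, psi q ^ j :=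
    Finset.sum_congr rfl fun j _ => psi_nat_mul j q
  rw [hs, geom_sum_eq hq]
  obtain ⟨z, hz⟩ := h2
  rw [← psi_nat_mul, hz, psi_int]
  simp

/-- The function space. -/
abbrev Fn := ℚ → ℤ → ℂ

/-- The action of the group on functions. -/
noncomputable def act (g : Gam) : Module.End ℤ Fn where
  toFun f := fun u κ =>
    psi ((g.a : ℚ) + (g.c : ℚ) * (2 ^ (-g.k) * (u - (g.b : ℚ)))) *
      f (2 ^ (-g.k) * (u - (g.b : ℚ))) (κ - g.k)
  map_add' f f' := by
    funext u κ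
    simp [mul_add]
  map_smul' n f := by
    funext u κ
    simp
    ring

theorem act_apply (g : Gam) (f : Fn) (u : ℚ) (κ : ℤ) :
    act g f u κ = psi ((g.a : ℚ) + (g.c : ℚ) * (2 ^ (-g.k) * (u - (g.b : ℚ)))) *
      f (2 ^ (-g.k) * (u - (g.b : ℚ))) (κ - g.k) := rfl

theorem act_one : act 1 = 1 := by
  apply LinearMap.ext
  intro f
  funext u κ
  rw [act_apply]
  simp [psi_zero]

theorem act_mul (g h : Gam) : act (g * h) = act g * act h := by
  apply LinearMap.ext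
  intro f
  funext u κ
  rw [Module.End.mul_apply, act_apply, act_apply, act_apply]
  have e1 : (2 : ℚ) ^ (-(g * h).k) * (u - ((g * h).b : ℚ)) =
      2 ^ (-h.k) * (2 ^ (-g.k) * (u - (g.b : ℚ)) - (h.b : ℚ)) := by
    have h2 : (2 : ℚ) ^ (-g.k) * 2 ^ g.k = 1 := by
      rw [← zpow_add₀ (by norm_num)]; simp
    rw [Gam.mul_k, Gam.mul_b, neg_add, zpow_add₀ (by norm_num)]
    push_cast [coe_tp]
    linear_combination (-(h.b : ℚ) * 2 ^ (-h.k)) * h2
  have e2 : κ - (g * h).k = κ - g.k - h.k := by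
    rw [Gam.mul_k]; ring
  rw [e1, e2, ← mul_assoc (psi _) (psi _) (f _ _), ← psi_add]
  congr 2
  have h2 : (2 : ℚ) ^ (h.k) * 2 ^ (-h.k) = 1 := by
    rw [← zpow_add₀ (by norm_num)]; simp
  rw [Gam.mul_a, Gam.mul_c]
  push_cast [coe_tp]
  linear_combination ((g.c : ℚ) * (2 ^ (-g.k) * (u - (g.b : ℚ)) - (h.b : ℚ))) * h2

/-- The action as a homomorphism. -/
noncomputable def rho : Gam →* Module.End ℤ Fn where
  toFun := act
  map_one' := act_one
  map_mul' := act_mul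

/-- The action of the group ring. -/
noncomputable def Phi : MonoidAlgebra ℤ Gam →ₐ[ℤ] Module.End ℤ Fn :=
  MonoidAlgebra.lift ℤ (Module.End ℤ Fn) Gam rho

theorem Phi_of (g : Gam) : Phi (MonoidAlgebra.of ℤ Gam g) = act g := by
  unfold Phi
  rw [MonoidAlgebra.lift_of]
  rfl

/-- Functions vanishing for all large second arguments. -/
def W : Submodule ℤ Fn where
  carrier := {f | ∃ K : ℤ, ∀ κ : ℤ, K ≤ κ → ∀ u, f u κ = 0}
  add_mem' := by
    rintro f g ⟨K, hK⟩ ⟨L, hL⟩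
    refine ⟨max K L, fun κ hκ u => ?_⟩
    show f u κ + g u κ = 0
    rw [hK κ (le_trans (le_max_left _ _) hκ), hL κ (le_trans (le_max_right _ _) hκ), add_zero]
  zero_mem' := ⟨0, fun _ _ _ => rfl⟩
  smul_mem' := by
    rintro n f ⟨K, hK⟩
    refine ⟨K, fun κ hκ u => ?_⟩
    show n • f u κ = 0
    rw [hK κ hκ, smul_zero]

theorem mem_W {f : Fn} : f ∈ W ↔ ∃ K : ℤ, ∀ κ : ℤ, K ≤ κ → ∀ u, f u κ = 0 := Iff.rfl

theorem Phi_W (s : MonoidAlgebra ℤ Gam) (f : Fn) (hf : f ∈ W) : Phi s f ∈ W := by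
  induction s using MonoidAlgebra.induction_on with
  | of g =>
    rw [Phi_of]
    obtain ⟨K, hK⟩ := hf
    refine ⟨K + g.k, fun κ hκ u => ?_⟩
    rw [act_apply, hK _ (by linarith), mul_zero]
  | add x y hx hy =>
    rw [map_add, LinearMap.add_apply]
    exact W.add_mem hx hy
  | smul r x hx =>
    rw [map_smul, LinearMap.smul_apply]
    exact W.smul_mem r hx

/-- The left ideal of all `r` with `r F ∈ W`. -/
noncomputable def idl (F : Fn) : Ideal (MonoidAlgebra ℤ Gam) where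
  carrier := {r | Phi r F ∈ W}
  add_mem' := by
    intro a b ha hb
    show Phi (a + b) F ∈ W
    rw [map_add, LinearMap.add_apply]
    exact W.add_mem ha hb
  zero_mem' := by
    show Phi 0 F ∈ W
    rw [map_zero]
    exact W.zero_mem
  smul_mem' := by
    intro c x hx
    show Phi (c * x) F ∈ W
    rw [map_mul, Module.End.mul_apply]
    exact Phi_W c _ hx

theorem mem_idl (F : Fn) (r : MonoidAlgebra ℤ Gam) : r ∈ idl F ↔ Phi r F ∈ W := Iff.rfl

/-- The weight of a block of `n` ones followed by a zero. -/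
noncomputable def wt (n : ℕ) : ℂ := 1 / (2 ^ (n + 1) * (n + 1))

theorem wt_ne (n : ℕ) : wt n ≠ 0 := by
  unfold wt
  have : ((n : ℂ) + 1) ≠ 0 := by exact_mod_cast Nat.succ_ne_zero n
  exact one_div_ne_zero (mul_ne_zero (pow_ne_zero _ two_ne_zero) this)

/-- The product of the weights of the complete blocks in the first `κ` binary digits of `z`,
when `n` ones have already been read. -/
noncomputable def G : ℕ → ℕ → ℤ → ℂ
  | _, 0, _ => 1
  | n, κ + 1, z => if Even z then wt n * G 0 κ (z / 2) else G (n + 1) κ (z / 2)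

theorem G_ne (κ : ℕ) : ∀ (n : ℕ) (z : ℤ), G n κ z ≠ 0 := by
  induction κ with
  | zero => intro n z; simp [G]
  | succ κ ih =>
    intro n z
    rw [G]
    split_ifs
    · exact mul_ne_zero (wt_ne n) (ih _ _)
    · exact ih _ _

theorem G_block (n : ℕ) : ∀ (j κ : ℕ) (z : ℤ),
    G j (κ + (n + 1)) (2 ^ (n + 1) * z + (2 ^ n - 1)) = wt (j + n) * G 0 κ z := by
  induction n with
  | zero =>
    intro j κ z
    have h1 : (2 : ℤ) ^ (0 + 1) * z + (2 ^ 0 - 1) = 2 * z := by ring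
    rw [h1, G, if_pos (even_two_mul z)]
    simp
  | succ n ih =>
    intro j κ z
    have h1 : (2 : ℤ) ^ (n + 1 + 1) * z + (2 ^ (n + 1) - 1) =
        2 * (2 ^ (n + 1) * z + (2 ^ n - 1)) + 1 := by ring
    have h2 : (2 * (2 ^ (n + 1) * z + (2 ^ n - 1)) + 1) / 2 = 2 ^ (n + 1) * z + (2 ^ n - 1) := by
      omega
    rw [h1, ← add_assoc, G, if_neg (by rw [Int.not_even_iff_odd]; exact ⟨_, rfl⟩), h2, ih]
    congr 2
    ring

/-- The vector. -/
noncomputable def vec : Fn := fun u κ =>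
  if u.den = 1 ∧ 0 ≤ κ then G 0 κ.toNat u.num else 0

theorem vec_int (z : ℤ) (κ : ℤ) (h : 0 ≤ κ) : vec z κ = G 0 κ.toNat z := by
  unfold vec
  rw [if_pos ⟨by simp, h⟩]
  simp

theorem vec_not_int (u : ℚ) (κ : ℤ) (h : ¬ ∃ z : ℤ, u = z) : vec u κ = 0 := by
  unfold vec
  rw [if_neg]
  rintro ⟨h1, -⟩
  apply h
  exact ⟨u.num, ((Rat.den_eq_one_iff u).mp h1).symm⟩

theorem vec_not_mem_W : vec ∉ W := by
  rintro ⟨K, hK⟩
  have h := hK (max K 0) (le_max_left _ _) ((0 : ℤ) : ℚ)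
  rw [vec_int _ _ (le_max_right _ _)] at h
  exact G_ne _ _ _ h

/-- The element `r_n` of the group ring. -/
noncomputable def rr (n : ℕ) : MonoidAlgebra ℤ Gam :=
  ∑ j ∈ Finset.range (2 ^ (n + 1)),
    MonoidAlgebra.of ℤ Gam (⟨0, 0, 0, (j : Dy)⟩ * ⟨-(n + 1 : ℤ), 0, -(tp (-(n + 1 : ℤ)) * (2 ^ n - 1)), 0⟩)

theorem Phi_rr (n : ℕ) (u : ℚ) (κ : ℤ) :
    Phi (rr n) vec u κ =
      (∑ j ∈ Finset.range (2 ^ (n + 1)), psi (j * u)) *
        vec (2 ^ (n + 1) * u + (2 ^ n - 1)) (κ + (n + 1)) := by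
  unfold rr
  rw [map_sum, LinearMap.sum_apply, Finset.sum_apply, Finset.sum_apply, Finset.sum_mul]
  refine Finset.sum_congr rfl fun j _ => ?_
  rw [Phi_of, act_mul, Module.End.mul_apply, act_apply, act_apply]
  have e0 : (2 : ℚ) ^ (-(0 : ℤ)) * (u - ((0 : Dy) : ℚ)) = u := by simp
  simp only [e0]
  have e1 : (2 : ℚ) ^ (- -(n + 1 : ℤ)) *
      (u - ((-(tp (-(n + 1 : ℤ)) * (2 ^ n - 1)) : Dy) : ℚ)) =
      2 ^ (n + 1) * u + (2 ^ n - 1) := by
    have h2 : (2 : ℚ) ^ (n + 1) * 2 ^ (-(n + 1 : ℤ)) = 1 := by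
      rw [← zpow_natCast, ← zpow_add₀ (by norm_num)]; simp
    have h3 : (2 : ℚ) ^ (- -(n + 1 : ℤ)) = 2 ^ (n + 1) := by
      rw [neg_neg, ← zpow_natCast]; norm_cast
    have h22 : ((2 : Dy) : ℚ) = 2 := rfl
    rw [h3]
    push_cast [coe_tp, h22]
    linear_combination (2 ^ n - 1 : ℚ) * h2
  rw [e1]
  have e2 : κ - 0 - -(n + 1 : ℤ) = κ + (n + 1) := by ring
  rw [e2]
  simp [psi_zero]

theorem key (n : ℕ) (u : ℚ) (κ : ℤ) (hκ : 0 ≤ κ) :
    ((n + 1 : ℕ) : ℂ) * Phi (rr n) vec u κ = vec u κ := by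
  rw [Phi_rr]
  by_cases hu : ∃ z : ℤ, u = z
  · obtain ⟨z, rfl⟩ := hu
    have h1 : ∑ j ∈ Finset.range (2 ^ (n + 1)), psi (j * (z : ℚ)) = 2 ^ (n + 1) := by
      have : ∀ j ∈ Finset.range (2 ^ (n + 1)), psi (j * (z : ℚ)) = 1 := by
        intro j _
        have := psi_int (j * z)
        push_cast at this
        exact this
      rw [Finset.sum_congr rfl this]
      simp
    have h2 : (2 : ℚ) ^ (n + 1) * (z : ℚ) + (2 ^ n - 1) =
        ((2 ^ (n + 1) * z + (2 ^ n - 1) : ℤ) : ℚ) := by push_cast; ring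
    rw [h1, h2, vec_int _ _ (by positivity), vec_int _ _ hκ]
    have h3 : (κ + (n + 1)).toNat = κ.toNat + (n + 1) := by omega
    rw [h3, G_block, zero_add]
    unfold wt
    have h4 : ((n : ℂ) + 1) ≠ 0 := by exact_mod_cast Nat.succ_ne_zero n
    push_cast
    field_simp
  · rw [vec_not_int u κ hu]
    by_cases h2 : ∃ z : ℤ, (2 : ℚ) ^ (n + 1) * u = z
    · rw [psi_sum_zero (2 ^ (n + 1)) u hu (by simpa using h2)]
      simp
    · rw [vec_not_int (2 ^ (n + 1) * u + (2 ^ n - 1))]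
      · simp
      · rintro ⟨z, hz⟩
        apply h2
        exact ⟨z - (2 ^ n - 1), by push_cast; linarith⟩

/-- The main point: a proper left ideal of the group ring with `1 ∈ n R + I` for all `n`. -/
theorem exists_leftIdeal : ∃ I : Ideal (MonoidAlgebra ℤ Gam), I ≠ ⊤ ∧
    ∀ n : ℕ, 0 < n → ∃ r : MonoidAlgebra ℤ Gam, 1 - (n : MonoidAlgebra ℤ Gam) * r ∈ I := by
  refine ⟨idl vec, ?_, ?_⟩
  · rw [Ideal.ne_top_iff_one, mem_idl, map_one, Module.End.one_apply]
    exact vec_not_mem_W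
  · intro n hn
    obtain ⟨m, rfl⟩ : ∃ m, n = m + 1 := ⟨n - 1, by omega⟩
    refine ⟨rr m, ?_⟩
    rw [mem_idl, mem_W]
    refine ⟨0, fun κ hκ u => ?_⟩
    have h := key m u κ hκ
    rw [map_sub, map_one, map_mul, map_natCast, LinearMap.sub_apply, Module.End.one_apply,
      Module.End.mul_apply]
    have h2 : ((((m + 1 : ℕ) : Module.End ℤ Fn)) (Phi (rr m) vec)) u κ =
        ((m + 1 : ℕ) : ℂ) * Phi (rr m) vec u κ := by
      rw [Module.End.natCast_apply]
      simp [nsmul_eq_mul]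
    show vec u κ - ((((m + 1 : ℕ) : Module.End ℤ Fn)) (Phi (rr m) vec)) u κ = 0
    rw [h2, h, sub_self]

end Pool.Agent.WMN
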