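import Pool.Agent.WMN.Defs

/-!
Proof. Put `Q i = {d : D | e d ∈ H i}`. A chain `f k` of subgroups of `D` between `Q i` and
`Q (i+1)` gives the chain `h k = {x | ∃ y ∈ H i, ∃ d ∈ f k, x = y * e d}` of subgroups of `G`
between `H i` and `H (i+1)` (use that `H i` is normal in `H (i+1)`), and `e d ∈ h k ↔ d ∈ f k`.
So each `[Q i, Q (i+1)]` has ACC or DCC.
(A) For all `i ≤ n` there is `B` with: for all primes `p > B`, `p • y ∈ Q i → y ∈ Q i`.
    Downward induction from `Q n = ⊤`. Step: `p • y ∈ Q i ⊆ Q (i+1)` so `y ∈ Q (i+1)`; ACC case: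
    the chain `f k = {x ∈ Q (i+1) : k! • x ∈ Q i}` is stable from `m` on, and for `p > m` prime
    `y ∈ f p = f (p-1)`, so `(p-1)! • y ∈ Q i`, `p • y ∈ Q i`, coprime, `y ∈ Q i`. DCC case:
    `f k = {x ∈ Q (i+1) : ∃ m > 0 coprime to k!, m • x ∈ Q i}`: `y ∈ f (p-1) = f p`, so
    `m • y ∈ Q i` with `m` prime to `p`.
(B) `Q i = ⊥` for all `i ≤ n`: upward induction: if `Q i = ⊥` and `0 ≠ y ∈ Q (i+1)`: ACC case: take a
    large prime `p`, `y_0 = y`, `p • y_{k+1} = y_k` (divisible), all in `Q (i+1)` by (A), chain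
    `zmultiples y_k` is strictly increasing; DCC case: chain `zmultiples (2^k • y)`.
So `Q n = ⊥`, contradiction to `Q n = ⊤` and `D ≠ 0`.
-/

set_option autoImplicit false

namespace Pool.Agent.WMN

section NotMin

variable {G D : Type} [Group G] [AddCommGroup D] (e : Multiplicative D →* G)

/-- pull back of a subgroup of `G` to `D` -/
private def QQ (K : Subgroup G) : AddSubgroup D where
  carrier := {d | e (Multiplicative.ofAdd d) ∈ K}
  add_mem' := by
    intro a b ha hb
    show e (Multiplicative.ofAdd (a + b)) ∈ K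
    rw [ofAdd_add, map_mul]
    exact K.mul_mem ha hb
  zero_mem' := by
    show e (Multiplicative.ofAdd 0) ∈ K
    rw [ofAdd_zero, map_one]
    exact K.one_mem
  neg_mem' := by
    intro a ha
    show e (Multiplicative.ofAdd (-a)) ∈ K
    rw [ofAdd_neg, map_inv]
    exact K.inv_mem ha

private lemma mem_QQ (K : Subgroup G) (d : D) :
    d ∈ QQ e K ↔ e (Multiplicative.ofAdd d) ∈ K := Iff.rfl

/-- push forward of a subgroup of `D` between the pull backs -/
private def LL (K K' : Subgroup G) (hn : (K.subgroupOf K').Normal)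
    (F : AddSubgroup D) (h2 : F ≤ QQ e K') (hle : K ≤ K') : Subgroup G where
  carrier := {x | ∃ y ∈ K, ∃ d ∈ F, x = y * e (Multiplicative.ofAdd d)}
  mul_mem' := by
    rintro a b ⟨y, hy, d, hd, rfl⟩ ⟨y', hy', d', hd', rfl⟩
    have hc : e (Multiplicative.ofAdd d) * y' * (e (Multiplicative.ofAdd d))⁻¹ ∈ K := by
      have := hn.conj_mem ⟨y', hle hy'⟩ hy' ⟨e (Multiplicative.ofAdd d), h2 hd⟩
      exact this
    refine ⟨y * (e (Multiplicative.ofAdd d) * y' * (e (Multiplicative.ofAdd d))⁻¹),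
      K.mul_mem hy hc, d + d', F.add_mem hd hd', ?_⟩
    rw [ofAdd_add, map_mul]
    group
  one_mem' := ⟨1, K.one_mem, 0, F.zero_mem, by simp⟩
  inv_mem' := by
    rintro a ⟨y, hy, d, hd, rfl⟩
    have hc : (e (Multiplicative.ofAdd d))⁻¹ * y⁻¹ * ((e (Multiplicative.ofAdd d))⁻¹)⁻¹ ∈ K := by
      have := hn.conj_mem ⟨y⁻¹, hle (K.inv_mem hy)⟩ (K.inv_mem hy)
        ⟨(e (Multiplicative.ofAdd d))⁻¹, K'.inv_mem (h2 hd)⟩
      exact this
    refine ⟨_, hc, -d, F.neg_mem hd, ?_⟩
    rw [ofAdd_neg, map_inv]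
    group

private lemma mem_LL {K K' : Subgroup G} (hn : (K.subgroupOf K').Normal)
    (F : AddSubgroup D) (h2 : F ≤ QQ e K') (hle : K ≤ K') (h1 : QQ e K ≤ F) (d : D) :
    e (Multiplicative.ofAdd d) ∈ LL e K K' hn F h2 hle ↔ d ∈ F := by
  constructor
  · rintro ⟨y, hy, d', hd', h⟩
    have h3 : d - d' ∈ QQ e K := by
      rw [mem_QQ, ofAdd_sub, map_div, h]
      simpa using hy
    have h4 := F.add_mem (h1 h3) hd'
    simpa using h4
  · intro hd
    exact ⟨1, K.one_mem, d, hd, by simp⟩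

private lemma le_LL {K K' : Subgroup G} (hn : (K.subgroupOf K').Normal)
    (F : AddSubgroup D) (h2 : F ≤ QQ e K') (hle : K ≤ K') :
    K ≤ LL e K K' hn F h2 hle := fun x hx => ⟨x, hx, 0, F.zero_mem, by simp⟩

private lemma LL_le {K K' : Subgroup G} (hn : (K.subgroupOf K').Normal)
    (F : AddSubgroup D) (h2 : F ≤ QQ e K') (hle : K ≤ K') :
    LL e K K' hn F h2 hle ≤ K' := by
  rintro x ⟨y, hy, d, hd, rfl⟩
  exact K'.mul_mem (hle hy) (h2 hd)

private lemma LL_mono {K K' : Subgroup G} (hn : (K.subgroupOf K').Normal)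
    {F F' : AddSubgroup D} (h2 : F ≤ QQ e K') (h2' : F' ≤ QQ e K') (hle : K ≤ K') (hF : F ≤ F') :
    LL e K K' hn F h2 hle ≤ LL e K K' hn F' h2' hle := by
  rintro x ⟨y, hy, d, hd, rfl⟩
  exact ⟨y, hy, d, hF hd, rfl⟩

private lemma chain_acc {K K' : Subgroup G} (hn : (K.subgroupOf K').Normal) (hle : K ≤ K')
    (hA : ∀ f : ℕ → Subgroup G, (∀ k, K ≤ f k ∧ f k ≤ K') → Monotone f →
      ∃ m : ℕ, ∀ k : ℕ, m ≤ k → f k = f m)
    (f : ℕ → AddSubgroup D) (hf : ∀ k, QQ e K ≤ f k ∧ f k ≤ QQ e K') (hm : Monotone f) :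
    ∃ m : ℕ, ∀ k : ℕ, m ≤ k → f k = f m := by
  obtain ⟨m, hm'⟩ := hA (fun k => LL e K K' hn (f k) (hf k).2 hle)
    (fun k => ⟨le_LL e hn _ _ hle, LL_le e hn _ _ hle⟩)
    (fun a b hab => LL_mono e hn _ _ hle (hm hab))
  refine ⟨m, fun k hk => ?_⟩
  ext d
  rw [← mem_LL e hn (f k) (hf k).2 hle (hf k).1, ← mem_LL e hn (f m) (hf m).2 hle (hf m).1]
  have := hm' k hk
  rw [this]

private lemma chain_dcc {K K' : Subgroup G} (hn : (K.subgroupOf K').Normal) (hle : K ≤ K')
    (hA : ∀ f : ℕ → Subgroup G, (∀ k, K ≤ f k ∧ f k ≤ K') → Antitone f →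
      ∃ m : ℕ, ∀ k : ℕ, m ≤ k → f k = f m)
    (f : ℕ → AddSubgroup D) (hf : ∀ k, QQ e K ≤ f k ∧ f k ≤ QQ e K') (hm : Antitone f) :
    ∃ m : ℕ, ∀ k : ℕ, m ≤ k → f k = f m := by
  obtain ⟨m, hm'⟩ := hA (fun k => LL e K K' hn (f k) (hf k).2 hle)
    (fun k => ⟨le_LL e hn _ _ hle, LL_le e hn _ _ hle⟩)
    (fun a b hab => LL_mono e hn _ _ hle (hm hab))
  refine ⟨m, fun k hk => ?_⟩
  ext d
  rw [← mem_LL e hn (f k) (hf k).2 hle (hf k).1, ← mem_LL e hn (f m) (hf m).2 hle (hf m).1]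
  have := hm' k hk
  rw [this]

/-- coprime multiples in an additive subgroup -/
private lemma mem_of_coprime (F : AddSubgroup D) {a b : ℕ} (hab : Nat.Coprime a b) {y : D}
    (ha : a • y ∈ F) (hb : b • y ∈ F) : y ∈ F := by
  have h := Nat.gcd_eq_gcd_ab a b
  rw [hab.gcd_eq_one] at h
  have h2 : y = (Nat.gcdA a b) • (a • y) + (Nat.gcdB a b) • (b • y) := by
    rw [← natCast_zsmul y a, ← natCast_zsmul y b, smul_smul, smul_smul, ← add_smul]
    have : Nat.gcdA a b * (a : ℤ) + Nat.gcdB a b * (b : ℤ) = 1 := by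
      rw [mul_comm, mul_comm (Nat.gcdB a b)]
      exact_mod_cast h.symm
    rw [this, one_smul]
  rw [h2]
  exact F.add_mem (F.zsmul_mem ha _) (F.zsmul_mem hb _)

/-- a step of (A), ascending case -/
private lemma stepA_acc (F F' : AddSubgroup D) (hle : F ≤ F')
    (hA : ∀ f : ℕ → AddSubgroup D, (∀ k, F ≤ f k ∧ f k ≤ F') → Monotone f →
      ∃ m : ℕ, ∀ k : ℕ, m ≤ k → f k = f m)
    (B : ℕ) (hB : ∀ p : ℕ, p.Prime → B < p → ∀ y : D, p • y ∈ F' → y ∈ F') :
    ∃ B' : ℕ, ∀ p : ℕ, p.Prime → B' < p → ∀ y : D, p • y ∈ F → y ∈ F := by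
  let f : ℕ → AddSubgroup D := fun k =>
    { carrier := {x | x ∈ F' ∧ (Nat.factorial k) • x ∈ F}
      add_mem' := by
        rintro a b ⟨ha, ha'⟩ ⟨hb, hb'⟩
        refine ⟨F'.add_mem ha hb, ?_⟩
        rw [smul_add]
        exact F.add_mem ha' hb'
      zero_mem' := ⟨F'.zero_mem, by rw [smul_zero]; exact F.zero_mem⟩
      neg_mem' := by
        rintro a ⟨ha, ha'⟩
        refine ⟨F'.neg_mem ha, ?_⟩
        rw [smul_neg]
        exact F.neg_mem ha' }
  have hmem : ∀ k x, x ∈ f k ↔ x ∈ F' ∧ (Nat.factorial k) • x ∈ F := fun k x => Iff.rfl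
  obtain ⟨m, hm⟩ := hA f
    (fun k => ⟨fun x hx => ⟨hle hx, F.nsmul_mem hx _⟩, fun x hx => hx.1⟩)
    (fun a b hab x hx => by
      rw [hmem] at hx ⊢
      refine ⟨hx.1, ?_⟩
      obtain ⟨c, hc⟩ := Nat.factorial_dvd_factorial hab
      rw [hc, mul_comm, mul_smul]
      exact F.nsmul_mem hx.2 _)
  refine ⟨max B (m + 1), fun p hp hpB y hy => ?_⟩
  have hpB1 : B < p := lt_of_le_of_lt (le_max_left _ _) hpB
  have hpm : m + 1 < p := lt_of_le_of_lt (le_max_right _ _) hpB
  have hy' : y ∈ F' := hB p hp hpB1 y (hle hy)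
  have hfac : Nat.factorial p = Nat.factorial (p - 1) * p := by
    rw [mul_comm]
    exact (Nat.mul_factorial_pred hp.ne_zero).symm
  have h1 : y ∈ f p := by
    rw [hmem]
    refine ⟨hy', ?_⟩
    rw [hfac, mul_smul]
    exact F.nsmul_mem hy _
  have h2 : f p = f (p - 1) := by
    rw [hm p (by omega), hm (p - 1) (by omega)]
  rw [h2, hmem] at h1
  have hco : Nat.Coprime (Nat.factorial (p - 1)) p := by
    rw [Nat.coprime_comm]
    exact (Nat.coprime_factorial_iff (by omega)).2 (by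
      rw [hp.minFac_eq]; omega)
  exact mem_of_coprime F hco h1.2 hy

/-- a step of (A), descending case -/
private lemma stepA_dcc (F F' : AddSubgroup D) (hle : F ≤ F')
    (hA : ∀ f : ℕ → AddSubgroup D, (∀ k, F ≤ f k ∧ f k ≤ F') → Antitone f →
      ∃ m : ℕ, ∀ k : ℕ, m ≤ k → f k = f m)
    (B : ℕ) (hB : ∀ p : ℕ, p.Prime → B < p → ∀ y : D, p • y ∈ F' → y ∈ F') :
    ∃ B' : ℕ, ∀ p : ℕ, p.Prime → B' < p → ∀ y : D, p • y ∈ F → y ∈ F := by
  let f : ℕ → AddSubgroup D := fun k =>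
    { carrier := {x | x ∈ F' ∧ ∃ c : ℕ, Nat.Coprime c (Nat.factorial k) ∧ c • x ∈ F}
      add_mem' := by
        rintro a b ⟨ha, c, hc, ha'⟩ ⟨hb, c', hc', hb'⟩
        refine ⟨F'.add_mem ha hb, c * c', hc.mul_left hc', ?_⟩
        rw [smul_add]
        refine F.add_mem ?_ ?_
        · rw [mul_comm, mul_smul]; exact F.nsmul_mem ha' _
        · rw [mul_smul]; exact F.nsmul_mem hb' _
      zero_mem' := ⟨F'.zero_mem, 1, Nat.coprime_one_left _, by rw [smul_zero]; exact F.zero_mem⟩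
      neg_mem' := by
        rintro a ⟨ha, c, hc, ha'⟩
        refine ⟨F'.neg_mem ha, c, hc, ?_⟩
        rw [smul_neg]
        exact F.neg_mem ha' }
  have hmem : ∀ k x, x ∈ f k ↔ x ∈ F' ∧ ∃ c : ℕ, Nat.Coprime c (Nat.factorial k) ∧ c • x ∈ F :=
    fun k x => Iff.rfl
  obtain ⟨m, hm⟩ := hA f
    (fun k => ⟨fun x hx => ⟨hle hx, 1, Nat.coprime_one_left _, by rw [one_smul]; exact hx⟩,
      fun x hx => hx.1⟩)
    (fun a b hab x hx => by
      rw [hmem] at hx ⊢
      obtain ⟨h1, c, hc, h2⟩ := hx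
      exact ⟨h1, c, hc.coprime_dvd_right (Nat.factorial_dvd_factorial hab), h2⟩)
  refine ⟨max B (m + 1), fun p hp hpB y hy => ?_⟩
  have hpB1 : B < p := lt_of_le_of_lt (le_max_left _ _) hpB
  have hpm : m + 1 < p := lt_of_le_of_lt (le_max_right _ _) hpB
  have hy' : y ∈ F' := hB p hp hpB1 y (hle hy)
  have hco : Nat.Coprime p (Nat.factorial (p - 1)) :=
    (Nat.coprime_factorial_iff (by omega)).2 (by rw [hp.minFac_eq]; omega)
  have h1 : y ∈ f (p - 1) := (hmem _ _).2 ⟨hy', p, hco, hy⟩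
  have h2 : f p = f (p - 1) := by
    rw [hm p (by omega), hm (p - 1) (by omega)]
  rw [← h2, hmem] at h1
  obtain ⟨-, c, hc, h3⟩ := h1
  have hcp : Nat.Coprime c p :=
    hc.coprime_dvd_right (Nat.dvd_factorial hp.pos le_rfl)
  exact mem_of_coprime F hcp h3 hy

private lemma zsmul_ne (htf : ∀ n : ℕ, 0 < n → ∀ x : D, n • x = 0 → x = 0) {z : ℤ} (hz : z ≠ 0)
    {x : D} (hx : z • x = 0) : x = 0 := by
  apply htf z.natAbs (Int.natAbs_pos.2 hz)
  rcases Int.natAbs_eq z with h | h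
  · rw [← natCast_zsmul, ← h]; exact hx
  · rw [← natCast_zsmul]
    have : ((z.natAbs : ℕ) : ℤ) = -z := by omega
    rw [this, neg_smul, hx, neg_zero]

end NotMin

theorem not_minimax {G D : Type} [Group G] [AddCommGroup D] [Nontrivial D]
    (e : Multiplicative D →* G) (he : Function.Injective e)
    (htf : ∀ n : ℕ, 0 < n → ∀ x : D, n • x = 0 → x = 0)
    (hdiv : ∀ n : ℕ, 0 < n → ∀ x : D, ∃ y : D, n • y = x) :
    ¬ ∃ (n : ℕ) (H : ℕ → Subgroup G), H 0 = ⊥ ∧ H n = ⊤ ∧
        ∀ i : ℕ, i < n →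
          (H i ≤ H (i + 1) ∧ ((H i).subgroupOf (H (i + 1))).Normal ∧
            ((∀ f : ℕ → Subgroup G, (∀ k, H i ≤ f k ∧ f k ≤ H (i + 1)) → Monotone f →
                ∃ m : ℕ, ∀ k : ℕ, m ≤ k → f k = f m) ∨
             (∀ f : ℕ → Subgroup G, (∀ k, H i ≤ f k ∧ f k ≤ H (i + 1)) → Antitone f →
                ∃ m : ℕ, ∀ k : ℕ, m ≤ k → f k = f m))) := by
  rintro ⟨n, H, h0, hn, hstep⟩
  -- the transferred chain conditions
  have hQle : ∀ i, i < n → QQ e (H i) ≤ QQ e (H (i + 1)) := fun i hi x hx => (hstep i hi).1 hx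
  have hQ : ∀ i, i < n →
      ((∀ f : ℕ → AddSubgroup D, (∀ k, QQ e (H i) ≤ f k ∧ f k ≤ QQ e (H (i + 1))) → Monotone f →
                ∃ m : ℕ, ∀ k : ℕ, m ≤ k → f k = f m) ∨
       (∀ f : ℕ → AddSubgroup D, (∀ k, QQ e (H i) ≤ f k ∧ f k ≤ QQ e (H (i + 1))) → Antitone f →
                ∃ m : ℕ, ∀ k : ℕ, m ≤ k → f k = f m)) := by
    intro i hi
    obtain ⟨hle, hnor, h | h⟩ := hstep i hi
    · exact Or.inl (fun f hf hm => chain_acc e hnor hle h f hf hm)
    · exact Or.inr (fun f hf hm => chain_dcc e hnor hle h f hf hm)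
  -- (A)
  have hA : ∀ j, j ≤ n → ∃ B : ℕ, ∀ p : ℕ, p.Prime → B < p → ∀ y : D,
      p • y ∈ QQ e (H (n - j)) → y ∈ QQ e (H (n - j)) := by
    intro j
    induction j with
    | zero =>
      intro _
      refine ⟨0, fun p _ _ y _ => ?_⟩
      rw [mem_QQ, Nat.sub_zero, hn]
      exact Subgroup.mem_top _
    | succ j ih =>
      intro hj
      obtain ⟨B, hB⟩ := ih (by omega)
      have hi : n - (j + 1) < n := by omega
      have hi2 : n - (j + 1) + 1 = n - j := by omega
      have hle := hQle _ hi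
      have hch := hQ _ hi
      rw [hi2] at hle hch
      rcases hch with h | h
      · exact stepA_acc _ _ hle h B hB
      · exact stepA_dcc _ _ hle h B hB
  -- (B)
  have hBot : ∀ i, i ≤ n → QQ e (H i) = ⊥ := by
    intro i
    induction i with
    | zero =>
      intro _
      rw [eq_bot_iff]
      intro d hd
      rw [mem_QQ, h0, Subgroup.mem_bot] at hd
      have : Multiplicative.ofAdd d = 1 := he (by rw [hd, map_one])
      rw [AddSubgroup.mem_bot]
      exact this
    | succ i ih =>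
      intro hi
      have hbot := ih (by omega)
      rw [eq_bot_iff]
      intro y hy
      rw [AddSubgroup.mem_bot]
      by_contra hy0
      rcases hQ i (by omega) with h | h
      · -- ascending case
        obtain ⟨B, hB⟩ := hA (n - (i + 1)) (by omega)
        have hi2 : n - (n - (i + 1)) = i + 1 := by omega
        rw [hi2] at hB
        obtain ⟨p, hpB, hp⟩ := Nat.exists_infinite_primes (B + 1)
        choose g hg using hdiv p hp.pos
        let y' : ℕ → D := fun k => Nat.rec y (fun _ a => g a) k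
        have hy'0 : y' 0 = y := rfl
        have hy's : ∀ k, p • y' (k + 1) = y' k := fun k => hg (y' k)
        have hmemy : ∀ k, y' k ∈ QQ e (H (i + 1)) := by
          intro k
          induction k with
          | zero => exact hy
          | succ k ihk =>
            apply hB p hp (by omega)
            rw [hy's]
            exact ihk
        have hne : ∀ k, y' k ≠ 0 := by
          intro k
          induction k with
          | zero => exact hy0
          | succ k ihk =>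
            intro h0'
            apply ihk
            rw [← hy's, h0', smul_zero]
        obtain ⟨m, hm⟩ := h (fun k => AddSubgroup.zmultiples (y' k))
          (fun k => ⟨by rw [hbot]; exact bot_le, by
            rw [AddSubgroup.zmultiples_le]; exact hmemy k⟩)
          (monotone_nat_of_le_succ (fun k => by
            rw [AddSubgroup.zmultiples_le, AddSubgroup.mem_zmultiples_iff]
            exact ⟨p, by rw [natCast_zsmul]; exact hy's k⟩))
        have h3 : y' (m + 1) ∈ AddSubgroup.zmultiples (y' m) := by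
          have := hm (m + 1) (Nat.le_succ m)
          rw [← this]
          exact AddSubgroup.mem_zmultiples _
        rw [AddSubgroup.mem_zmultiples_iff] at h3
        obtain ⟨z, hz⟩ := h3
        rw [← hy's m, ← natCast_zsmul, smul_smul] at hz
        have h4 : (z * (p : ℤ) - 1) • y' (m + 1) = 0 := by
          rw [sub_smul, one_smul, hz, sub_self]
        refine hne (m + 1) (zsmul_ne htf ?_ h4)
        intro h5
        have h6 : (p : ℤ) ∣ 1 := ⟨z, by linarith⟩
        have h7 := Int.natAbs_dvd_natAbs.2 h6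
        simp only [Int.natAbs_natCast, Int.natAbs_one, Nat.dvd_one] at h7
        exact hp.one_lt.ne' h7
      · -- descending case
        obtain ⟨m, hm⟩ := h (fun k => AddSubgroup.zmultiples ((2 ^ k : ℕ) • y))
          (fun k => ⟨by rw [hbot]; exact bot_le, by
            rw [AddSubgroup.zmultiples_le]; exact AddSubgroup.nsmul_mem _ hy _⟩)
          (antitone_nat_of_succ_le (fun k => by
            rw [AddSubgroup.zmultiples_le, AddSubgroup.mem_zmultiples_iff]
            refine ⟨2, ?_⟩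
            rw [← natCast_zsmul, ← natCast_zsmul, smul_smul]
            congr 1
            push_cast
            ring))
        have h3 : (2 ^ m : ℕ) • y ∈ AddSubgroup.zmultiples ((2 ^ (m + 1) : ℕ) • y) := by
          have := hm (m + 1) (Nat.le_succ m)
          rw [this]
          exact AddSubgroup.mem_zmultiples _
        rw [AddSubgroup.mem_zmultiples_iff] at h3
        obtain ⟨z, hz⟩ := h3
        rw [← natCast_zsmul, ← natCast_zsmul, smul_smul] at hz
        have h4 : (z * ((2 ^ (m + 1) : ℕ) : ℤ) - ((2 ^ m : ℕ) : ℤ)) • y = 0 := by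
          rw [sub_smul, hz, sub_self]
        refine hy0 (zsmul_ne htf ?_ h4)
        intro h5
        have h6 : ((2 : ℤ) ^ m) * (2 * z - 1) = 0 := by
          push_cast at h5
          rw [pow_succ] at h5
          linarith
        rcases mul_eq_zero.1 h6 with h7 | h7
        · exact absurd h7 (by positivity)
        · omega
  obtain ⟨x, hx⟩ := exists_ne (0 : D)
  apply hx
  have h1 : x ∈ QQ e (H n) := by
    rw [mem_QQ, hn]
    exact Subgroup.mem_top _
  rw [hBot n le_rfl, AddSubgroup.mem_bot] at h1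
  exact h1

end Pool.Agent.WMN
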