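import Pool.Agent.WMN.Index

/-!
`G = Multiplicative D ⋊[φ] Γ`, `φ γ d = (single γ 1) • d`. Solvable by `solvable_of_ker_le_range`
(inl, rightHom). A normal subgroup `N` of `G`: `N ∩ range inl` is a submodule of the simple
module `D`, hence bot or everything. So for an antitone chain of normal subgroups
`N k ⊓ rightHom.ker` is eventually constant, and `relIndex_ne_zero_of_map` with `WM Γ` applies.
-/

set_option autoImplicit false

namespace Pool.Agent.WMN

/-- The action of the group on a module over its integral group ring. -/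
noncomputable def semiAct (Γ D : Type) [Group Γ] [AddCommGroup D]
    [Module (MonoidAlgebra ℤ Γ) D] : Γ →* MulAut (Multiplicative D) where
  toFun γ :=
    { toFun := fun x => Multiplicative.ofAdd
        ((MonoidAlgebra.single γ (1 : ℤ) : MonoidAlgebra ℤ Γ) • x.toAdd)
      invFun := fun x => Multiplicative.ofAdd
        ((MonoidAlgebra.single γ⁻¹ (1 : ℤ) : MonoidAlgebra ℤ Γ) • x.toAdd)
      left_inv := by
        intro x
        simp only [toAdd_ofAdd, smul_smul, MonoidAlgebra.single_mul_single, inv_mul_cancel,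
          mul_one]
        rw [← MonoidAlgebra.one_def, one_smul, ofAdd_toAdd]
      right_inv := by
        intro x
        simp only [toAdd_ofAdd, smul_smul, MonoidAlgebra.single_mul_single, mul_inv_cancel,
          mul_one]
        rw [← MonoidAlgebra.one_def, one_smul, ofAdd_toAdd]
      map_mul' := by
        intro x y
        rw [toAdd_mul, smul_add, ofAdd_add] }
  map_one' := by
    ext x
    show Multiplicative.ofAdd ((MonoidAlgebra.single (1 : Γ) (1 : ℤ) : MonoidAlgebra ℤ Γ) • x.toAdd) = x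
    rw [← MonoidAlgebra.one_def, one_smul, ofAdd_toAdd]
  map_mul' := by
    intro γ δ
    ext x
    show Multiplicative.ofAdd ((MonoidAlgebra.single (γ * δ) (1 : ℤ) : MonoidAlgebra ℤ Γ) • x.toAdd)
      = Multiplicative.ofAdd ((MonoidAlgebra.single γ (1 : ℤ) : MonoidAlgebra ℤ Γ) •
        ((MonoidAlgebra.single δ (1 : ℤ) : MonoidAlgebra ℤ Γ) • x.toAdd))
    rw [smul_smul, MonoidAlgebra.single_mul_single, mul_one]

theorem semiAct_apply {Γ D : Type} [Group Γ] [AddCommGroup D]
    [Module (MonoidAlgebra ℤ Γ) D] (γ : Γ) (d : D) :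
    semiAct Γ D γ (Multiplicative.ofAdd d) =
      Multiplicative.ofAdd ((MonoidAlgebra.single γ (1 : ℤ) : MonoidAlgebra ℤ Γ) • d) := rfl

/-- The elements of `D` inside a normal subgroup of the semidirect product. -/
noncomputable def semiSub {Γ D : Type} [Group Γ] [AddCommGroup D]
    [Module (MonoidAlgebra ℤ Γ) D]
    (N : Subgroup (Multiplicative D ⋊[semiAct Γ D] Γ)) (hN : N.Normal) :
    Submodule (MonoidAlgebra ℤ Γ) D where
  carrier := {d | SemidirectProduct.inl (Multiplicative.ofAdd d) ∈ N}
  add_mem' := by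
    intro a b ha hb
    show SemidirectProduct.inl (Multiplicative.ofAdd (a + b)) ∈ N
    rw [ofAdd_add, map_mul]
    exact N.mul_mem ha hb
  zero_mem' := by
    show SemidirectProduct.inl (Multiplicative.ofAdd (0 : D)) ∈ N
    rw [ofAdd_zero, map_one]
    exact N.one_mem
  smul_mem' := by
    intro r d hd
    have hadd : ∀ a b : D, SemidirectProduct.inl (Multiplicative.ofAdd a) ∈ N →
        SemidirectProduct.inl (Multiplicative.ofAdd b) ∈ N →
        SemidirectProduct.inl (Multiplicative.ofAdd (a + b)) ∈ N := by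
      intro a b ha hb
      rw [ofAdd_add, map_mul]
      exact N.mul_mem ha hb
    show SemidirectProduct.inl (Multiplicative.ofAdd (r • d)) ∈ N
    have hz : SemidirectProduct.inl (Multiplicative.ofAdd (0 : D)) ∈ N := by
      rw [ofAdd_zero, map_one]
      exact N.one_mem
    have key : ∀ (γ : Γ) (n : ℤ),
        SemidirectProduct.inl (Multiplicative.ofAdd
          ((MonoidAlgebra.single γ n : MonoidAlgebra ℤ Γ) • d)) ∈ N := by
      intro γ n
      have h1 : (MonoidAlgebra.single γ n : MonoidAlgebra ℤ Γ) • d =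
          n • ((MonoidAlgebra.single γ (1 : ℤ) : MonoidAlgebra ℤ Γ) • d) := by
        have : (MonoidAlgebra.single γ n : MonoidAlgebra ℤ Γ) =
            n • (MonoidAlgebra.single γ (1 : ℤ) : MonoidAlgebra ℤ Γ) := by
          rw [MonoidAlgebra.smul_single, smul_eq_mul, mul_one]
        rw [this, smul_assoc]
      rw [h1, ofAdd_zsmul, map_zpow]
      apply N.zpow_mem
      rw [← semiAct_apply, SemidirectProduct.inl_aut, map_inv]
      exact hN.conj_mem _ hd _
    induction r using MonoidAlgebra.induction_linear with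
    | zero => rw [zero_smul]; exact hz
    | add f g hf hg => rw [add_smul]; exact hadd _ _ hf hg
    | single γ n => exact key γ n

theorem mem_semiSub {Γ D : Type} [Group Γ] [AddCommGroup D]
    [Module (MonoidAlgebra ℤ Γ) D]
    (N : Subgroup (Multiplicative D ⋊[semiAct Γ D] Γ)) (hN : N.Normal) (d : D) :
    d ∈ semiSub N hN ↔ SemidirectProduct.inl (Multiplicative.ofAdd d) ∈ N := Iff.rfl

theorem semi_inf_ker {Γ D : Type} [Group Γ] [AddCommGroup D]
    [Module (MonoidAlgebra ℤ Γ) D]
    (N M : Subgroup (Multiplicative D ⋊[semiAct Γ D] Γ)) (hN : N.Normal) (hM : M.Normal)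
    (h : semiSub N hN = semiSub M hM) :
    N ⊓ (SemidirectProduct.rightHom (φ := semiAct Γ D)).ker =
      M ⊓ (SemidirectProduct.rightHom (φ := semiAct Γ D)).ker := by
  rw [← SemidirectProduct.range_inl_eq_ker_rightHom]
  ext x
  simp only [Subgroup.mem_inf, MonoidHom.mem_range]
  constructor
  · rintro ⟨hx, ⟨y, rfl⟩⟩
    refine ⟨?_, ⟨y, rfl⟩⟩
    have : y.toAdd ∈ semiSub N hN := hx
    rw [h] at this
    exact this
  · rintro ⟨hx, ⟨y, rfl⟩⟩
    refine ⟨?_, ⟨y, rfl⟩⟩
    have : y.toAdd ∈ semiSub M hM := hx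
    rw [← h] at this
    exact this

theorem assembly {Γ : Type} [Group Γ] (hs : IsSolvable Γ)
    (ht : ∀ g : Γ, ∀ n : ℕ, 0 < n → g ^ n = 1 → g = 1) (hw : WM Γ)
    (D : Type) [AddCommGroup D] [Module (MonoidAlgebra ℤ Γ) D]
    (hD : IsSimpleModule (MonoidAlgebra ℤ Γ) D)
    (htf : ∀ n : ℕ, 0 < n → ∀ x : D, n • x = 0 → x = 0) :
    ∃ (G : Type) (_ : Group G) (e : Multiplicative D →* G), Function.Injective e ∧
      IsSolvable G ∧
      (∀ g : G, ∀ n : ℕ, 0 < n → g ^ n = 1 → g = 1) ∧
      (∀ N : ℕ → Subgroup G, (∀ k, (N k).Normal) → Antitone N →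
          ∃ m : ℕ, ∀ k : ℕ, m ≤ k → ((N (k + 1)).subgroupOf (N k)).index ≠ 0) := by
  refine ⟨Multiplicative D ⋊[semiAct Γ D] Γ, inferInstance, SemidirectProduct.inl,
    SemidirectProduct.inl_injective, ?_, ?_, ?_⟩
  · haveI : Group.IsSolvable Γ := hs
    exact Group.isSolvable_of_ker_le_range (G' := Multiplicative D) (G'' := Γ)
      (SemidirectProduct.inl (φ := semiAct Γ D)) (SemidirectProduct.rightHom (φ := semiAct Γ D))
      (le_of_eq SemidirectProduct.range_inl_eq_ker_rightHom.symm)
  · intro g n hn hg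
    have h1 : (SemidirectProduct.rightHom (φ := semiAct Γ D)) g = 1 := by
      apply ht _ n hn
      rw [← map_pow, hg, map_one]
    have h2 : g ∈ (SemidirectProduct.inl (φ := semiAct Γ D)).range := by
      rw [SemidirectProduct.range_inl_eq_ker_rightHom]
      exact h1
    obtain ⟨y, rfl⟩ := h2
    rw [← map_pow] at hg
    have h3 : y ^ n = 1 := SemidirectProduct.inl_injective (by rw [hg, map_one])
    have h4 : n • y.toAdd = 0 := by
      rw [← toAdd_pow, h3, toAdd_one]
    have h5 : y.toAdd = 0 := htf n hn _ h4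
    have h6 : y = 1 := by
      rw [← ofAdd_toAdd y, h5, ofAdd_zero]
    rw [h6, map_one]
  · intro N hN hanti
    obtain ⟨m1, hm1⟩ := hw (fun k => (N k).map (SemidirectProduct.rightHom (φ := semiAct Γ D)))
      (fun a b hab => Subgroup.map_mono (hanti hab))
    have hSanti : ∀ a b, a ≤ b → semiSub (N b) (hN b) ≤ semiSub (N a) (hN a) := by
      intro a b hab d hd
      exact hanti hab hd
    have hstab : ∃ m2 : ℕ, ∀ k, m2 ≤ k → semiSub (N (k + 1)) (hN (k + 1)) =
        semiSub (N k) (hN k) := by
      by_cases hb : ∃ m2, semiSub (N m2) (hN m2) = ⊥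
      · obtain ⟨m2, hm2⟩ := hb
        refine ⟨m2, fun k hk => ?_⟩
        have e1 : semiSub (N k) (hN k) = ⊥ := by
          rw [eq_bot_iff, ← hm2]
          exact hSanti m2 k hk
        have e2 : semiSub (N (k + 1)) (hN (k + 1)) = ⊥ := by
          rw [eq_bot_iff, ← hm2]
          exact hSanti m2 (k + 1) (by omega)
        rw [e1, e2]
      · push Not at hb
        refine ⟨0, fun k _ => ?_⟩
        have e1 := (eq_bot_or_eq_top (semiSub (N k) (hN k))).resolve_left (hb k)
        have e2 := (eq_bot_or_eq_top (semiSub (N (k + 1)) (hN (k + 1)))).resolve_left (hb (k + 1))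
        rw [e1, e2]
    obtain ⟨m2, hm2⟩ := hstab
    refine ⟨max m1 m2, fun k hk => ?_⟩
    have h1 := hm1 k (le_trans (le_max_left _ _) hk)
    have h2 := hm2 k (le_trans (le_max_right _ _) hk)
    have h3 := semi_inf_ker _ _ _ _ h2
    refine relIndex_ne_zero_of_map (SemidirectProduct.rightHom (φ := semiAct Γ D)) (N k)
      (N (k + 1)) (hanti (Nat.le_succ k)) ?_ h1
    rw [h3, Subgroup.relIndex_self]
    exact one_ne_zero

end Pool.Agent.WMN
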