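import Pool.Agent.WMN.Defs

set_option autoImplicit false

namespace Pool.Agent.WMN

/-- A proper left ideal containing some `1 - n r` for each `n > 0` gives a simple module whose
additive group is torsion-free and divisible. -/
theorem exists_simple {R : Type} [Ring R] (I : Ideal R) (hI : I ≠ ⊤)
    (h : ∀ n : ℕ, 0 < n → ∃ r : R, 1 - (n : R) * r ∈ I) :
    ∃ (D : Type) (_ : AddCommGroup D) (_ : Module R D), IsSimpleModule R D ∧
      (∀ n : ℕ, 0 < n → ∀ x : D, n • x = 0 → x = 0) ∧
      (∀ n : ℕ, 0 < n → ∀ x : D, ∃ y : D, n • y = x) := by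
  obtain ⟨J, hJ, hIJ⟩ := Ideal.exists_le_maximal I hI
  have hs : IsSimpleModule R (R ⧸ J) := by
    rw [isSimpleModule_iff_isCoatom]
    exact Ideal.isMaximal_def.mp hJ
  set e : R ⧸ J := Submodule.Quotient.mk (1 : R) with he
  have he0 : e ≠ 0 := by
    intro h0
    rw [he, Submodule.Quotient.mk_eq_zero] at h0
    exact hJ.ne_top ((Ideal.eq_top_iff_one J).mpr h0)
  have hr : ∀ n : ℕ, 0 < n → ∃ z : R ⧸ J, n • z = e := by
    intro n hn
    obtain ⟨r, hr⟩ := h n hn
    refine ⟨Submodule.Quotient.mk r, ?_⟩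
    have h1 : (Submodule.Quotient.mk (1 - (n : R) * r) : R ⧸ J) = 0 :=
      (Submodule.Quotient.mk_eq_zero J).mpr (hIJ hr)
    rw [Submodule.Quotient.mk_sub, sub_eq_zero] at h1
    rw [he, h1, ← nsmul_eq_mul, Submodule.Quotient.mk_smul]
  let T : ℕ → (R ⧸ J) →ₗ[R] (R ⧸ J) := fun n =>
    { toFun := fun x => n • x
      map_add' := fun x y => smul_add n x y
      map_smul' := fun s x => smul_comm n s x }
  refine ⟨R ⧸ J, inferInstance, inferInstance, hs, ?_, ?_⟩
  · intro n hn x hx
    rcases eq_bot_or_eq_top (LinearMap.ker (T n)) with h1 | h1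
    · have h2 : x ∈ LinearMap.ker (T n) := hx
      rw [h1] at h2
      exact (Submodule.mem_bot R).mp h2
    · exfalso
      obtain ⟨z, hz⟩ := hr n hn
      have h2 : z ∈ LinearMap.ker (T n) := by rw [h1]; trivial
      have h3 : n • z = 0 := h2
      exact he0 (hz.symm.trans h3)
  · intro n hn x
    rcases eq_bot_or_eq_top (LinearMap.range (T n)) with h1 | h1
    · exfalso
      obtain ⟨z, hz⟩ := hr n hn
      have h2 : n • z ∈ LinearMap.range (T n) := ⟨z, rfl⟩
      rw [h1, Submodule.mem_bot, hz] at h2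
      exact he0 h2
    · have h2 : x ∈ LinearMap.range (T n) := by rw [h1]; trivial
      obtain ⟨y, hy⟩ := h2
      exact ⟨y, hy⟩

end Pool.Agent.WMN
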