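import Mathlib

/-!
Definitions for the counterexample to MP_6f2ea1_al (frozen negation S01846).

`WM G`: weak minimal condition on all subgroups.
`Dy`: the ring of dyadic rationals, as a subring of the rationals.
`Gam`: the torsion-free soluble minimax group, the extension of Heis(Z[1/2]) by an
infinite cyclic group, realised as the matrices (1 c a; 0 2^k b; 0 0 1).
-/

set_option autoImplicit false

namespace Pool.Agent.WMN

/-- The weak minimal condition on all subgroups: in every descending chain only finitely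
many indices are infinite. -/
def WM (G : Type) [Group G] : Prop :=
  ∀ N : ℕ → Subgroup G, Antitone N →
    ∃ m : ℕ, ∀ k : ℕ, m ≤ k → (N (k + 1)).relIndex (N k) ≠ 0

/-- The dyadic rationals. -/
def Dy : Subring ℚ where
  carrier := {q | ∃ n : ℕ, ∃ z : ℤ, q * 2 ^ n = z}
  mul_mem' := by
    rintro a b ⟨n, z, h⟩ ⟨m, w, h'⟩
    refine ⟨n + m, z * w, ?_⟩
    push_cast
    rw [← h, ← h', pow_add]; ring
  one_mem' := ⟨0, 1, by norm_num⟩
  add_mem' := by
    rintro a b ⟨n, z, h⟩ ⟨m, w, h'⟩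
    refine ⟨n + m, z * 2 ^ m + w * 2 ^ n, ?_⟩
    push_cast
    rw [← h, ← h', pow_add]; ring
  zero_mem' := ⟨0, 0, by norm_num⟩
  neg_mem' := by
    rintro a ⟨n, z, h⟩
    refine ⟨n, -z, ?_⟩
    push_cast
    rw [← h]; ring

theorem mem_Dy {q : ℚ} : q ∈ Dy ↔ ∃ n : ℕ, ∃ z : ℤ, q * 2 ^ n = z := Iff.rfl

/-- multiplication by the integer power `2 ^ k` on the dyadic rationals. -/
theorem two_zpow_mem (k : ℤ) : (2 : ℚ) ^ k ∈ Dy := by
  rcases Int.eq_nat_or_neg k with ⟨n, rfl | rfl⟩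
  · exact ⟨0, 2 ^ n, by push_cast; simp⟩
  · refine ⟨n, 1, ?_⟩
    rw [zpow_neg, zpow_natCast]
    push_cast
    exact inv_mul_cancel₀ (by positivity)

/-- `2 ^ k` as a dyadic rational. -/
def tp (k : ℤ) : Dy := ⟨(2 : ℚ) ^ k, two_zpow_mem k⟩

@[simp] theorem tp_zero : tp 0 = 1 := by
  apply Subtype.ext; simp [tp]

theorem tp_add (k l : ℤ) : tp (k + l) = tp k * tp l := by
  apply Subtype.ext
  show (2 : ℚ) ^ (k + l) = 2 ^ k * 2 ^ l
  exact zpow_add₀ (by norm_num) k l

theorem coe_tp (k : ℤ) : ((tp k : Dy) : ℚ) = 2 ^ k := rfl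

/-- The group of matrices (1 c a; 0 2^k b; 0 0 1). -/
@[ext] structure Gam where
  k : ℤ
  a : Dy
  b : Dy
  c : Dy

namespace Gam

instance : Mul Gam := ⟨fun x y =>
  ⟨x.k + y.k, x.a + y.a + x.c * y.b, tp x.k * y.b + x.b, y.c + tp y.k * x.c⟩⟩
instance : One Gam := ⟨⟨0, 0, 0, 0⟩⟩
instance : Inv Gam := ⟨fun x =>
  ⟨-x.k, -x.a + tp (-x.k) * (x.c * x.b), -(tp (-x.k) * x.b), -(tp (-x.k) * x.c)⟩⟩

@[simp] theorem mul_k (x y : Gam) : (x * y).k = x.k + y.k := rfl
@[simp] theorem mul_a (x y : Gam) : (x * y).a = x.a + y.a + x.c * y.b := rfl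
@[simp] theorem mul_b (x y : Gam) : (x * y).b = tp x.k * y.b + x.b := rfl
@[simp] theorem mul_c (x y : Gam) : (x * y).c = y.c + tp y.k * x.c := rfl
@[simp] theorem one_k : (1 : Gam).k = 0 := rfl
@[simp] theorem one_a : (1 : Gam).a = 0 := rfl
@[simp] theorem one_b : (1 : Gam).b = 0 := rfl
@[simp] theorem one_c : (1 : Gam).c = 0 := rfl
@[simp] theorem inv_k (x : Gam) : (x⁻¹).k = -x.k := rfl
@[simp] theorem inv_a (x : Gam) : (x⁻¹).a = -x.a + tp (-x.k) * (x.c * x.b) := rfl
@[simp] theorem inv_b (x : Gam) : (x⁻¹).b = -(tp (-x.k) * x.b) := rfl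
@[simp] theorem inv_c (x : Gam) : (x⁻¹).c = -(tp (-x.k) * x.c) := rfl

instance : Group Gam := Group.ofLeftAxioms
  (by
    intro x y z
    ext
    · simp [add_assoc]
    · simp; ring
    · simp [tp_add]; ring
    · simp [tp_add]; ring)
  (by
    intro x
    ext <;> simp)
  (by
    intro x
    have h : tp (-x.k) * tp x.k = 1 := by rw [← tp_add]; simp
    ext
    · simp
    · simp; ring
    · simp
    · simp
      have h2 : ((tp x.k : Dy) : ℚ) * tp (-x.k) = 1 := by
        have := congrArg (Subtype.val) h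
        simpa [mul_comm] using this
      have : (x.c : ℚ) - tp x.k * (tp (-x.k) * x.c) = 0 := by
        rw [← mul_assoc, h2]; ring
      linarith)

end Gam

end Pool.Agent.WMN
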