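import Pool.Agent.WMN.Defs

set_option autoImplicit false

namespace Pool.Agent.WMN

/-- Let `B ≤ A` be subgroups of `G` and `f : G → H` a homomorphism. If `B ∩ ker f` has finite
index in `A ∩ ker f` and `f B` has finite index in `f A` then `B` has finite index in `A`. -/
theorem relIndex_ne_zero_of_map {G H : Type} [Group G] [Group H] (f : G →* H)
    (A B : Subgroup G) (hBA : B ≤ A)
    (h1 : (B ⊓ f.ker).relIndex (A ⊓ f.ker) ≠ 0)
    (h2 : (B.map f).relIndex (A.map f) ≠ 0) : B.relIndex A ≠ 0 := by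
  have f1 : Finite (↥(A ⊓ f.ker) ⧸ (B ⊓ f.ker).subgroupOf (A ⊓ f.ker)) :=
    Subgroup.index_ne_zero_iff_finite.mp h1
  have f2 : Finite (↥(A.map f) ⧸ (B.map f).subgroupOf (A.map f)) :=
    Subgroup.index_ne_zero_iff_finite.mp h2
  have hsurj : ∀ q : (↥(A.map f) ⧸ (B.map f).subgroupOf (A.map f)), ∃ a : A,
      (QuotientGroup.mk (⟨f a.1, Subgroup.mem_map_of_mem f a.2⟩ : ↥(A.map f)) :
        (↥(A.map f) ⧸ (B.map f).subgroupOf (A.map f))) = q := by
    intro q
    induction q using QuotientGroup.induction_on with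
    | H z =>
      obtain ⟨z, hz⟩ := z
      obtain ⟨a, ha, rfl⟩ := Subgroup.mem_map.mp hz
      exact ⟨⟨a, ha⟩, rfl⟩
  choose r hr using hsurj
  let Φ : (↥(A.map f) ⧸ (B.map f).subgroupOf (A.map f)) ×
      (↥(A ⊓ f.ker) ⧸ (B ⊓ f.ker).subgroupOf (A ⊓ f.ker)) → (↥A ⧸ B.subgroupOf A) :=
    fun p => QuotientGroup.mk ((r p.1) * ⟨(p.2.out).1, (p.2.out).2.1⟩)
  have hΦ : Function.Surjective Φ := by
    intro x
    induction x using QuotientGroup.induction_on with
    | H a =>
      set q : (↥(A.map f) ⧸ (B.map f).subgroupOf (A.map f)) :=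
        QuotientGroup.mk (⟨f a.1, Subgroup.mem_map_of_mem f a.2⟩ : ↥(A.map f)) with hq
      have h3 := hr q
      rw [hq, QuotientGroup.eq] at h3
      rw [Subgroup.mem_subgroupOf] at h3
      obtain ⟨b, hb, hb2⟩ := Subgroup.mem_map.mp h3
      have hb2' : f b = (f (r q).1)⁻¹ * f a.1 := by
        rw [hb2]; rfl
      have hk : (r q).1⁻¹ * a.1 * b⁻¹ ∈ A ⊓ f.ker := by
        constructor
        · exact A.mul_mem (A.mul_mem (A.inv_mem (r q).2) a.2) (A.inv_mem (hBA hb))
        · show f ((r q).1⁻¹ * a.1 * b⁻¹) = 1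
          rw [map_mul, map_mul, map_inv, map_inv, hb2']
          simp
      set κ : (↥(A ⊓ f.ker) ⧸ (B ⊓ f.ker).subgroupOf (A ⊓ f.ker)) :=
        QuotientGroup.mk ⟨(r q).1⁻¹ * a.1 * b⁻¹, hk⟩ with hκ
      refine ⟨(q, κ), ?_⟩
      have h4 : (QuotientGroup.mk κ.out : (↥(A ⊓ f.ker) ⧸ (B ⊓ f.ker).subgroupOf (A ⊓ f.ker))) = κ :=
        QuotientGroup.out_eq' κ
      rw [hκ, QuotientGroup.eq, ← hκ, Subgroup.mem_subgroupOf] at h4
      have h5 : (κ.out).1⁻¹ * ((r q).1⁻¹ * a.1 * b⁻¹) ∈ B := h4.1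
      show (QuotientGroup.mk ((r q) * ⟨(κ.out).1, (κ.out).2.1⟩) : (↥A ⧸ B.subgroupOf A)) = _
      rw [QuotientGroup.eq, Subgroup.mem_subgroupOf]
      show ((r q).1 * (κ.out).1)⁻¹ * a.1 ∈ B
      have h6 : ((r q).1 * (κ.out).1)⁻¹ * a.1
          = ((κ.out).1⁻¹ * ((r q).1⁻¹ * a.1 * b⁻¹)) * b := by group
      rw [h6]
      exact B.mul_mem h5 hb
  have : Finite (↥A ⧸ B.subgroupOf A) := Finite.of_surjective Φ hΦ
  exact Subgroup.index_ne_zero_iff_finite.mpr this

/-- The weak minimal condition passes to subgroups. -/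
theorem WM.of_injective {G H : Type} [Group G] [Group H] (f : G →* H)
    (hf : Function.Injective f) (h : WM H) : WM G := by
  intro N hN
  obtain ⟨m, hm⟩ := h (fun n => (N n).map f) (fun a b hab => Subgroup.map_mono (hN hab))
  refine ⟨m, fun k hk => ?_⟩
  have := hm k hk
  rwa [Subgroup.relIndex_map_map_of_injective _ _ hf] at this

/-- The weak minimal condition is closed under extensions. -/
theorem WM.of_ker {G H : Type} [Group G] [Group H] (f : G →* H)
    (h1 : WM f.ker) (h2 : WM H) : WM G := by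
  intro N hN
  obtain ⟨m, hm⟩ := h2 (fun n => (N n).map f) (fun a b hab => Subgroup.map_mono (hN hab))
  obtain ⟨m', hm'⟩ := h1 (fun n => (N n).subgroupOf f.ker)
    (fun a b hab => Subgroup.comap_mono (hN hab))
  refine ⟨max m m', fun k hk => ?_⟩
  apply relIndex_ne_zero_of_map f (N k) (N (k + 1)) (hN (Nat.le_succ k))
  · have h3 := hm' k (le_trans (le_max_right _ _) hk)
    have h4 : ((N (k + 1)).subgroupOf f.ker).relIndex ((N k).subgroupOf f.ker)
        = (((N (k + 1)).subgroupOf f.ker).map f.ker.subtype).relIndex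
          (((N k).subgroupOf f.ker).map f.ker.subtype) :=
      (Subgroup.relIndex_map_map_of_injective _ _ f.ker.subtype_injective).symm
    rw [h4, Subgroup.subgroupOf_map_subtype, Subgroup.subgroupOf_map_subtype] at h3
    exact h3
  · exact hm k (le_trans (le_max_left _ _) hk)

end Pool.Agent.WMN
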