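import Mathlib

set_option autoImplicit false

namespace Pool.Agent.WMN.Ins

/-- Every non-identity element has infinite order. -/
def TorsionFree (G : Type) [Group G] : Prop :=
  ∀ g : G, g ≠ 1 → ∀ n : ℕ, 0 < n → g ^ n ≠ 1

/-- The weak minimal condition on subgroups: in every descending chain of subgroups only finitely
many of the successive indices are infinite (Mathlib writes an infinite relative index as 0). -/
def WeakMin (G : Type) [Group G] : Prop :=
  ∀ N : ℕ → Subgroup G, (∀ k, N (k + 1) ≤ N k) →
    {k : ℕ | (N (k + 1)).relIndex (N k) = 0}.Finite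

/-- The weak minimal condition on normal subgroups. -/
def WeakMinNormal (G : Type) [Group G] : Prop :=
  ∀ N : ℕ → Subgroup G, (∀ k, (N k).Normal) → (∀ k, N (k + 1) ≤ N k) →
    {k : ℕ | (N (k + 1)).relIndex (N k) = 0}.Finite

/-- Minimax: a finite subnormal series each of whose factors satisfies the maximal or the minimal
condition on subgroups. -/
def IsMinimax (G : Type) [Group G] : Prop :=
  ∃ (n : ℕ) (H : ℕ → Subgroup G), H 0 = ⊥ ∧ H n = ⊤ ∧ ∀ i : ℕ, i < n →
    H i ≤ H (i + 1) ∧ ∃ _ : ((H i).subgroupOf (H (i + 1))).Normal,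
      (WellFoundedGT (Subgroup (↥(H (i + 1)) ⧸ (H i).subgroupOf (H (i + 1)))) ∨
        WellFoundedLT (Subgroup (↥(H (i + 1)) ⧸ (H i).subgroupOf (H (i + 1)))))

end Pool.Agent.WMN.Ins
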