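import Pool.Agent.WMN.InsSemi

set_option autoImplicit false

namespace Pool.Agent.WMN.Ins

open Pool.Agent.WMN

section

variable {D : Type} [AddCommGroup D] [Module (MonoidAlgebra ℤ Gam) D]

/-- the semidirect product -/
abbrev GG (D : Type) [AddCommGroup D] [Module (MonoidAlgebra ℤ Gam) D] : Type :=
  Multiplicative D ⋊[semiAct Gam D] Gam

/-- the projection to `Gam` -/
noncomputable abbrev rH (D : Type) [AddCommGroup D] [Module (MonoidAlgebra ℤ Gam) D] : GG D →* Gam :=
  SemidirectProduct.rightHom (φ := semiAct Gam D)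

theorem mem_ker_iff (x : GG D) : x ∈ (rH D).ker ↔
    ∃ d : D, SemidirectProduct.inl (φ := semiAct Gam D) (Multiplicative.ofAdd d) = x := by
  rw [← SemidirectProduct.range_inl_eq_ker_rightHom, MonoidHom.mem_range]
  exact ⟨fun ⟨y, hy⟩ => ⟨y.toAdd, hy⟩, fun ⟨y, hy⟩ => ⟨Multiplicative.ofAdd y, hy⟩⟩

theorem ker_comm (x y : GG D) (hx : x ∈ (rH D).ker) (hy : y ∈ (rH D).ker) : x * y = y * x := by
  obtain ⟨a, rfl⟩ := (mem_ker_iff x).1 hx
  obtain ⟨b, rfl⟩ := (mem_ker_iff y).1 hy
  rw [← map_mul SemidirectProduct.inl, ← map_mul SemidirectProduct.inl,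
    mul_comm (Multiplicative.ofAdd a)]

/-- The elements of `D` inside a subgroup containing the complement. -/
noncomputable def subOf (K : Subgroup (GG D)) (hK : ∀ γ : Gam,
    SemidirectProduct.inr (φ := semiAct Gam D) γ ∈ K) :
    Submodule (MonoidAlgebra ℤ Gam) D where
  carrier := {d | SemidirectProduct.inl (Multiplicative.ofAdd d) ∈ K}
  add_mem' := by
    intro a b ha hb
    show SemidirectProduct.inl (Multiplicative.ofAdd (a + b)) ∈ K
    rw [ofAdd_add, map_mul]
    exact K.mul_mem ha hb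
  zero_mem' := by
    show SemidirectProduct.inl (Multiplicative.ofAdd (0 : D)) ∈ K
    rw [ofAdd_zero, map_one]
    exact K.one_mem
  smul_mem' := by
    intro r d hd
    have hadd : ∀ a b : D, SemidirectProduct.inl (Multiplicative.ofAdd a) ∈ K →
        SemidirectProduct.inl (Multiplicative.ofAdd b) ∈ K →
        SemidirectProduct.inl (Multiplicative.ofAdd (a + b)) ∈ K := by
      intro a b ha hb
      rw [ofAdd_add, map_mul]
      exact K.mul_mem ha hb
    show SemidirectProduct.inl (Multiplicative.ofAdd (r • d)) ∈ K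
    have hz : SemidirectProduct.inl (Multiplicative.ofAdd (0 : D)) ∈ K := by
      rw [ofAdd_zero, map_one]
      exact K.one_mem
    have key : ∀ (γ : Gam) (n : ℤ),
        SemidirectProduct.inl (Multiplicative.ofAdd
          ((MonoidAlgebra.single γ n : MonoidAlgebra ℤ Gam) • d)) ∈ K := by
      intro γ n
      have h1 : (MonoidAlgebra.single γ n : MonoidAlgebra ℤ Gam) • d =
          n • ((MonoidAlgebra.single γ (1 : ℤ) : MonoidAlgebra ℤ Gam) • d) := by
        have : (MonoidAlgebra.single γ n : MonoidAlgebra ℤ Gam) =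
            n • (MonoidAlgebra.single γ (1 : ℤ) : MonoidAlgebra ℤ Gam) := by
          rw [MonoidAlgebra.smul_single, smul_eq_mul, mul_one]
        rw [this, smul_assoc]
      rw [h1, ofAdd_zsmul, map_zpow]
      apply K.zpow_mem
      rw [← semiAct_apply, SemidirectProduct.inl_aut]
      exact K.mul_mem (K.mul_mem (hK _) hd) (hK _)
    induction r using MonoidAlgebra.induction_linear with
    | zero => rw [zero_smul]; exact hz
    | add f g hf hg => rw [add_smul]; exact hadd _ _ hf hg
    | single γ n => exact key γ n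

theorem four_gen (hD : IsSimpleModule (MonoidAlgebra ℤ Gam) D) :
    ∃ a b c d : GG D, Subgroup.closure ({a, b, c, d} : Set (GG D)) = ⊤ := by
  have hnt : Nontrivial D := IsSimpleModule.nontrivial (MonoidAlgebra ℤ Gam) D
  obtain ⟨d0, hd0⟩ := exists_ne (0 : D)
  refine ⟨SemidirectProduct.inr gk, SemidirectProduct.inr gb, SemidirectProduct.inr gc,
    SemidirectProduct.inl (Multiplicative.ofAdd d0), ?_⟩
  set K := Subgroup.closure ({SemidirectProduct.inr gk, SemidirectProduct.inr gb,
    SemidirectProduct.inr gc, SemidirectProduct.inl (Multiplicative.ofAdd d0)} : Set (GG D)) with hK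
  have h1 : ∀ γ : Gam, SemidirectProduct.inr (φ := semiAct Gam D) γ ∈ K := by
    intro γ
    have h2 : Subgroup.closure ({gk, gb, gc} : Set Gam) ≤
        K.comap (SemidirectProduct.inr (φ := semiAct Gam D)) := by
      rw [Subgroup.closure_le]
      rintro x (rfl | rfl | rfl)
      · exact Subgroup.subset_closure (by simp)
      · exact Subgroup.subset_closure (by simp)
      · exact Subgroup.subset_closure (by simp)
    rw [gam_closure] at h2
    exact h2 (Subgroup.mem_top γ)
  have h3 : subOf K h1 = ⊤ := by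
    rcases eq_bot_or_eq_top (subOf K h1) with h | h
    · exfalso
      have h4 : d0 ∈ subOf K h1 := Subgroup.subset_closure (by simp)
      rw [h] at h4
      exact hd0 ((Submodule.mem_bot _).1 h4)
    · exact h
  rw [eq_top_iff]
  intro x _
  rw [← SemidirectProduct.inl_left_mul_inr_right x]
  refine K.mul_mem ?_ (h1 _)
  have h5 : x.left.toAdd ∈ subOf K h1 := by rw [h3]; trivial
  exact h5

theorem derived_four : derivedSeries (GG D) 4 = ⊥ := by
  have h3 : derivedSeries (GG D) 3 ≤ (rH D).ker := by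
    have h := map_derivedSeries_le_derivedSeries (rH D) 3
    rw [gam_derived] at h
    intro x hx
    have : (rH D) x ∈ (⊥ : Subgroup Gam) := h (Subgroup.mem_map_of_mem _ hx)
    exact this
  rw [derivedSeries_succ, eq_bot_iff, Subgroup.commutator_le]
  intro x hx y hy
  rw [Subgroup.mem_bot, commutatorElement_eq_one_iff_mul_comm]
  exact ker_comm x y (h3 hx) (h3 hy)

theorem tfree (htf : ∀ n : ℕ, 0 < n → ∀ x : D, n • x = 0 → x = 0) : TorsionFree (GG D) := by
  intro g hg1 n hn hg
  apply hg1
  have h1 : (rH D) g = 1 := by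
    apply Gam.torsionFree _ n hn
    rw [← map_pow, hg, map_one]
  obtain ⟨d, rfl⟩ := (mem_ker_iff g).1 h1
  rw [← map_pow] at hg
  have h3 : (Multiplicative.ofAdd d) ^ n = 1 :=
    SemidirectProduct.inl_injective (by rw [hg, map_one])
  have h4 : n • d = 0 := by
    rw [← ofAdd_nsmul] at h3
    exact ofAdd_eq_one.1 h3
  rw [htf n hn _ h4, ofAdd_zero, map_one]

theorem finite_of_eventually {p : ℕ → Prop} (h : ∃ m : ℕ, ∀ k : ℕ, m ≤ k → ¬ p k) :
    {k : ℕ | p k}.Finite := by
  obtain ⟨m, hm⟩ := h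
  refine (Set.finite_lt_nat m).subset fun k hk => ?_
  show k < m
  by_contra hcon
  exact hm k (not_lt.1 hcon) hk

theorem wmn (hD : IsSimpleModule (MonoidAlgebra ℤ Gam) D) : WeakMinNormal (GG D) := by
  intro N hN hstep
  have hanti : Antitone N := antitone_nat_of_succ_le hstep
  apply finite_of_eventually
  obtain ⟨m1, hm1⟩ := Gam.wm (fun k => (N k).map (rH D))
    (fun a b hab => Subgroup.map_mono (hanti hab))
  have hSanti : ∀ a b, a ≤ b → semiSub (N b) (hN b) ≤ semiSub (N a) (hN a) := by
    intro a b hab d hd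
    exact hanti hab hd
  have hstab : ∃ m2 : ℕ, ∀ k, m2 ≤ k → semiSub (N (k + 1)) (hN (k + 1)) =
      semiSub (N k) (hN k) := by
    by_cases hb : ∃ m2, semiSub (N m2) (hN m2) = ⊥
    · obtain ⟨m2, hm2⟩ := hb
      refine ⟨m2, fun k hk => ?_⟩
      have e1 : semiSub (N k) (hN k) = ⊥ := by
        rw [eq_bot_iff, ← hm2]
        exact hSanti m2 k hk
      have e2 : semiSub (N (k + 1)) (hN (k + 1)) = ⊥ := by
        rw [eq_bot_iff, ← hm2]
        exact hSanti m2 (k + 1) (by omega)
      rw [e1, e2]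
    · push Not at hb
      refine ⟨0, fun k _ => ?_⟩
      have e1 := (eq_bot_or_eq_top (semiSub (N k) (hN k))).resolve_left (hb k)
      have e2 := (eq_bot_or_eq_top (semiSub (N (k + 1)) (hN (k + 1)))).resolve_left (hb (k + 1))
      rw [e1, e2]
  obtain ⟨m2, hm2⟩ := hstab
  refine ⟨max m1 m2, fun k hk => ?_⟩
  have h1 := hm1 k (le_trans (le_max_left _ _) hk)
  have h2 := hm2 k (le_trans (le_max_right _ _) hk)
  have h3 := semi_inf_ker _ _ _ _ h2
  refine relIndex_ne_zero_of_map (rH D) (N k) (N (k + 1)) (hanti (Nat.le_succ k)) ?_ h1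
  rw [h3, Subgroup.relIndex_self]
  exact one_ne_zero

theorem ker_ne_bot (hD : IsSimpleModule (MonoidAlgebra ℤ Gam) D) : (rH D).ker ≠ ⊥ := by
  have hnt : Nontrivial D := IsSimpleModule.nontrivial (MonoidAlgebra ℤ Gam) D
  obtain ⟨d0, hd0⟩ := exists_ne (0 : D)
  intro h
  have h1 : SemidirectProduct.inl (φ := semiAct Gam D) (Multiplicative.ofAdd d0) ∈ (rH D).ker :=
    (mem_ker_iff _).2 ⟨d0, rfl⟩
  rw [h, Subgroup.mem_bot] at h1
  have h2 : Multiplicative.ofAdd d0 = 1 := SemidirectProduct.inl_injective (by rw [h1, map_one])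
  exact hd0 (ofAdd_eq_one.1 h2)

theorem ker_min (hD : IsSimpleModule (MonoidAlgebra ℤ Gam) D) (N : Subgroup (GG D))
    (hN : N.Normal) (hle : N ≤ (rH D).ker) : N = ⊥ ∨ N = (rH D).ker := by
  rcases eq_bot_or_eq_top (semiSub N hN) with h | h
  · left
    rw [eq_bot_iff]
    intro x hx
    obtain ⟨d, rfl⟩ := (mem_ker_iff x).1 (hle hx)
    have h1 : d ∈ semiSub N hN := hx
    rw [h, Submodule.mem_bot] at h1
    rw [h1, ofAdd_zero, map_one]
    exact Subgroup.one_mem _
  · right
    refine le_antisymm hle ?_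
    intro x hx
    obtain ⟨d, rfl⟩ := (mem_ker_iff x).1 hx
    have h1 : d ∈ semiSub N hN := by rw [h]; trivial
    exact h1

theorem ker_div (hdiv : ∀ n : ℕ, 0 < n → ∀ x : D, ∃ y : D, n • y = x) (n : ℕ) (hn : 0 < n)
    (x : GG D) (hx : x ∈ (rH D).ker) : ∃ y ∈ (rH D).ker, y ^ n = x := by
  obtain ⟨d, rfl⟩ := (mem_ker_iff x).1 hx
  obtain ⟨e, he⟩ := hdiv n hn d
  refine ⟨SemidirectProduct.inl (φ := semiAct Gam D) (Multiplicative.ofAdd e),
    (mem_ker_iff _).2 ⟨e, rfl⟩, ?_⟩
  rw [← map_pow, ← ofAdd_nsmul, he]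

/-- the quotient is `Gam` -/
noncomputable def quotHom : GG D ⧸ (rH D).ker →* Gam :=
  (QuotientGroup.quotientKerEquivOfSurjective (rH D)
    SemidirectProduct.rightHom_surjective).toMonoidHom

theorem quotHom_inj : Function.Injective (quotHom (D := D)) :=
  (QuotientGroup.quotientKerEquivOfSurjective (rH D)
    SemidirectProduct.rightHom_surjective).injective

end

theorem TorsionFree.of_injective {G K : Type} [Group G] [Group K] (f : G →* K)
    (hf : Function.Injective f) (h : ∀ g : K, ∀ n : ℕ, 0 < n → g ^ n = 1 → g = 1) :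
    TorsionFree G := by
  intro g hg n hn h1
  apply hg
  apply hf
  rw [map_one]
  exact h (f g) n hn (by rw [← map_pow, h1, map_one])

theorem WeakMin.of_wm {G : Type} [Group G] (h : WM G) : WeakMin G := by
  intro N hN
  exact finite_of_eventually (h N (antitone_nat_of_succ_le hN))

theorem derived_of_injective {G K : Type} [Group G] [Group K] (f : G →* K)
    (hf : Function.Injective f) (n : ℕ) (h : derivedSeries K n = ⊥) : derivedSeries G n = ⊥ := by
  rw [eq_bot_iff]
  intro x hx
  have h1 := map_derivedSeries_le_derivedSeries f n (Subgroup.mem_map_of_mem f hx)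
  rw [h, Subgroup.mem_bot] at h1
  rw [Subgroup.mem_bot]
  exact hf (by rw [h1, map_one])

end Pool.Agent.WMN.Ins
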