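import Pool.Agent.WMN.InsMm
import Pool.Agent.WMN.GamProp

set_option autoImplicit false

namespace Pool.Agent.WMN.Ins

open Pool.Agent.WMN

/-- the integers inside the dyadic rationals -/
def ZD : AddSubgroup Dy := (Int.castAddHom Dy).range

theorem mem_ZD {q : Dy} : q ∈ ZD ↔ ∃ z : ℤ, (z : Dy) = q := by
  rw [ZD, AddMonoidHom.mem_range]
  rfl

theorem wf_gt_int : WellFoundedGT (Subgroup (Multiplicative ℤ)) := by
  have h1 : WellFoundedGT (Submodule ℤ ℤ) := inferInstance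
  have h2 : StrictMono (fun S : Subgroup (Multiplicative ℤ) =>
      (AddSubgroup.toIntSubmodule (AddSubgroup.toSubgroup.symm S) : Submodule ℤ ℤ)) := by
    intro a b hab
    exact (OrderIso.strictMono AddSubgroup.toIntSubmodule)
      ((OrderIso.strictMono AddSubgroup.toSubgroup.symm) hab)
  exact h2.wellFoundedGT

/-- the two power denominators present in a subgroup -/
def lev (S : AddSubgroup (Dy ⧸ ZD)) : Set ℕ := {n | (QuotientAddGroup.mk (tp (-(n : ℤ))) : Dy ⧸ ZD) ∈ S}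

theorem lev_down {S : AddSubgroup (Dy ⧸ ZD)} {n m : ℕ} (h : n ∈ lev S) (hm : m ≤ n) : m ∈ lev S := by
  have h1 : tp (-(m : ℤ)) = (2 ^ (n - m) : ℕ) • tp (-(n : ℤ)) := by
    apply Subtype.ext
    have hc : (((2 ^ (n - m) : ℕ) : Dy) : ℚ) = (2 : ℚ) ^ ((n - m : ℕ) : ℤ) := by
      rw [zpow_natCast]
      push_cast
      rfl
    rw [nsmul_eq_mul, Subring.coe_mul, coe_tp, coe_tp, hc,
      ← zpow_add₀ (by norm_num : (2 : ℚ) ≠ 0)]
    congr 1
    omega
  show (QuotientAddGroup.mk (tp (-(m : ℤ))) : Dy ⧸ ZD) ∈ S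
  rw [h1, QuotientAddGroup.mk_nsmul]
  exact S.nsmul_mem h _

theorem mem_iff_lev (S : AddSubgroup (Dy ⧸ ZD)) (x : Dy) :
    (QuotientAddGroup.mk x : Dy ⧸ ZD) ∈ S ↔ ∃ (z : ℤ) (n : ℕ), x = z • tp (-(n : ℤ)) ∧ n ∈ lev S := by
  constructor
  · intro hx
    obtain ⟨n, z, h⟩ := x.2
    -- minimal exponent
    induction n using Nat.strong_induction_on generalizing z with
    | _ n ih =>
      have hxe : x = z • tp (-(n : ℤ)) := by
        apply Subtype.ext
        rw [zsmul_eq_mul, Subring.coe_mul, coe_tp, zpow_neg, zpow_natCast]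
        push_cast
        field_simp
        linarith
      rcases Nat.eq_zero_or_pos n with h0 | h0
      · subst h0
        refine ⟨z, 0, hxe, ?_⟩
        show (QuotientAddGroup.mk (tp (-((0 : ℕ) : ℤ))) : Dy ⧸ ZD) ∈ S
        have : (QuotientAddGroup.mk (tp (-((0 : ℕ) : ℤ))) : Dy ⧸ ZD) = 0 := by
          rw [QuotientAddGroup.eq_zero_iff, mem_ZD]
          exact ⟨1, by simp⟩
        rw [this]
        exact S.zero_mem
      · rcases Int.even_or_odd z with ⟨w, hw⟩ | hodd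
        · refine ih (n - 1) (by omega) w ?_
          have h2 : (x : ℚ) * 2 ^ n = z := h
          rw [hw] at h2
          push_cast at h2
          have h3 : (2 : ℚ) ^ n = 2 ^ (n - 1) * 2 := by
            rw [← pow_succ]
            congr 1
            omega
          rw [h3] at h2
          linarith
        · refine ⟨z, n, hxe, ?_⟩
          have hc : IsCoprime z ((2 : ℤ) ^ n) := by
            apply IsCoprime.pow_right
            rw [Int.isCoprime_iff_gcd_eq_one]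
            rcases hodd with ⟨w, hw⟩
            rw [Int.gcd_comm]
            have := Int.isCoprime_iff_gcd_eq_one (m := 2) (n := z)
            exact this.1 ⟨-w, 1, by rw [hw]; ring⟩
          obtain ⟨u, v, huv⟩ := hc
          show (QuotientAddGroup.mk (tp (-(n : ℤ))) : Dy ⧸ ZD) ∈ S
          have h4 : tp (-(n : ℤ)) = u • x + v • (1 : Dy) := by
            apply Subtype.ext
            have h5 : ((u • x + v • (1 : Dy) : Dy) : ℚ) = u * x + v := by
              push_cast [zsmul_eq_mul]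
              ring
            rw [h5, coe_tp, zpow_neg, zpow_natCast]
            have h6 : (u : ℚ) * z + v * 2 ^ n = 1 := by exact_mod_cast huv
            have h7 : (x : ℚ) * 2 ^ n = z := h
            field_simp
            rw [← h7] at h6
            linarith
          have h8 : (QuotientAddGroup.mk (v • (1 : Dy)) : Dy ⧸ ZD) = 0 := by
            rw [QuotientAddGroup.eq_zero_iff, mem_ZD]
            exact ⟨v, by simp⟩
          rw [h4, QuotientAddGroup.mk_add, h8, add_zero, QuotientAddGroup.mk_zsmul]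
          exact S.zsmul_mem hx _
  · rintro ⟨z, n, rfl, hn⟩
    rw [QuotientAddGroup.mk_zsmul]
    exact S.zsmul_mem hn _

theorem wf_lt_pruefer_add : WellFoundedLT (AddSubgroup (Dy ⧸ ZD)) := by
  have hm : StrictMono (fun S : AddSubgroup (Dy ⧸ ZD) => ⨆ n ∈ lev S, ((n : ℕ) : ℕ∞)) := by
    intro S T hST
    obtain ⟨hle, hne⟩ := lt_iff_le_not_ge.1 hST
    have hsub : lev S ⊆ lev T := fun n hn => hle hn
    have hex : ∃ n, n ∈ lev T ∧ n ∉ lev S := by
      by_contra hcon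
      push Not at hcon
      apply hne
      intro x
      induction x using QuotientAddGroup.induction_on with
      | H y =>
        intro hy
        obtain ⟨z, n, h1, h2⟩ := (mem_iff_lev T y).1 hy
        exact (mem_iff_lev S y).2 ⟨z, n, h1, hcon n h2⟩
    obtain ⟨n, hnT, hnS⟩ := hex
    have h0S : (0 : ℕ) ∈ lev S := by
      show (QuotientAddGroup.mk (tp (-((0 : ℕ) : ℤ))) : Dy ⧸ ZD) ∈ S
      have : (QuotientAddGroup.mk (tp (-((0 : ℕ) : ℤ))) : Dy ⧸ ZD) = 0 := by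
        rw [QuotientAddGroup.eq_zero_iff, mem_ZD]
        exact ⟨1, by simp⟩
      rw [this]
      exact S.zero_mem
    have hn0 : n ≠ 0 := fun h => hnS (h ▸ h0S)
    have h1 : (⨆ m ∈ lev S, ((m : ℕ) : ℕ∞)) ≤ ((n - 1 : ℕ) : ℕ∞) := by
      refine iSup₂_le fun m hm => ?_
      have : m < n := by
        by_contra hcon
        exact hnS (lev_down hm (by omega))
      exact_mod_cast (by omega : m ≤ n - 1)
    have h2 : ((n : ℕ) : ℕ∞) ≤ ⨆ m ∈ lev T, ((m : ℕ) : ℕ∞) := le_iSup₂_of_le n hnT le_rfl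
    refine lt_of_le_of_lt h1 (lt_of_lt_of_le ?_ h2)
    exact_mod_cast (by omega : n - 1 < n)
  exact hm.wellFoundedLT

theorem wf_lt_pruefer : WellFoundedLT (Subgroup (Multiplicative (Dy ⧸ ZD))) := by
  have h1 := wf_lt_pruefer_add
  exact (OrderIso.strictMono AddSubgroup.toSubgroup.symm).wellFoundedLT

/-- the integer part of a dyadic rational -/
def fl (q : Dy) : ℤ := ⌊(q : ℚ)⌋

theorem fl_int (z : ℤ) : fl (z : Dy) = z := by
  rw [fl, coeZ, Int.floor_intCast]

theorem fl_add {p q : Dy} (hp : p ∈ ZD) (hq : q ∈ ZD) : fl (p + q) = fl p + fl q := by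
  obtain ⟨z, rfl⟩ := mem_ZD.1 hp
  obtain ⟨w, rfl⟩ := mem_ZD.1 hq
  rw [← Int.cast_add, fl_int, fl_int, fl_int]

theorem fl_eq_zero {p : Dy} (hp : p ∈ ZD) : fl p = 0 ↔ p = 0 := by
  obtain ⟨z, rfl⟩ := mem_ZD.1 hp
  rw [fl_int]
  constructor
  · rintro rfl
    simp
  · intro h
    have h2 : (((z : ℤ) : Dy) : ℚ) = 0 := by rw [h]; rfl
    rw [coeZ] at h2
    exact_mod_cast h2

theorem fl_zero : fl 0 = 0 := (fl_eq_zero (AddSubgroup.zero_mem _)).2 rfl

/-- the subgroups of the series -/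
def S1 : Subgroup Gam where
  carrier := {x | x.k = 0 ∧ x.b = 0 ∧ x.c = 0 ∧ x.a ∈ ZD}
  mul_mem' := by
    rintro x y ⟨h1, h2, h3, h4⟩ ⟨g1, g2, g3, g4⟩
    refine ⟨by simp [h1, g1], by simp [h2, g2], by simp [h3, g3], ?_⟩
    rw [Gam.mul_a, g2, mul_zero, add_zero]
    exact ZD.add_mem h4 g4
  one_mem' := ⟨rfl, rfl, rfl, ZD.zero_mem⟩
  inv_mem' := by
    rintro x ⟨h1, h2, h3, h4⟩
    refine ⟨by simp [h1], by simp [h2], by simp [h3], ?_⟩
    rw [Gam.inv_a, h2, mul_zero, mul_zero, add_zero]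
    exact ZD.neg_mem h4

def S2 : Subgroup Gam where
  carrier := {x | x.k = 0 ∧ x.b = 0 ∧ x.c = 0}
  mul_mem' := by
    rintro x y ⟨h1, h2, h3⟩ ⟨g1, g2, g3⟩
    exact ⟨by simp [h1, g1], by simp [h2, g2], by simp [h3, g3]⟩
  one_mem' := ⟨rfl, rfl, rfl⟩
  inv_mem' := by
    rintro x ⟨h1, h2, h3⟩
    exact ⟨by simp [h1], by simp [h2], by simp [h3]⟩

def S3 : Subgroup Gam where
  carrier := {x | x.k = 0 ∧ x.c = 0 ∧ x.b ∈ ZD}
  mul_mem' := by
    rintro x y ⟨h1, h2, h3⟩ ⟨g1, g2, g3⟩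
    refine ⟨by simp [h1, g1], by simp [h2, g2], ?_⟩
    rw [Gam.mul_b, h1, tp_zero, one_mul]
    exact ZD.add_mem g3 h3
  one_mem' := ⟨rfl, rfl, ZD.zero_mem⟩
  inv_mem' := by
    rintro x ⟨h1, h2, h3⟩
    refine ⟨by simp [h1], by simp [h2], ?_⟩
    rw [Gam.inv_b, h1, neg_zero, tp_zero, one_mul]
    exact ZD.neg_mem h3

def S4 : Subgroup Gam where
  carrier := {x | x.k = 0 ∧ x.c = 0}
  mul_mem' := by
    rintro x y ⟨h1, h2⟩ ⟨g1, g2⟩
    exact ⟨by simp [h1, g1], by simp [h2, g2]⟩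
  one_mem' := ⟨rfl, rfl⟩
  inv_mem' := by
    rintro x ⟨h1, h2⟩
    exact ⟨by simp [h1], by simp [h2]⟩

def S5 : Subgroup Gam where
  carrier := {x | x.k = 0 ∧ x.c ∈ ZD}
  mul_mem' := by
    rintro x y ⟨h1, h2⟩ ⟨g1, g2⟩
    refine ⟨by simp [h1, g1], ?_⟩
    rw [Gam.mul_c, g1, tp_zero, one_mul]
    exact ZD.add_mem g2 h2
  one_mem' := ⟨rfl, ZD.zero_mem⟩
  inv_mem' := by
    rintro x ⟨h1, h2⟩
    refine ⟨by simp [h1], ?_⟩
    rw [Gam.inv_c, h1, neg_zero, tp_zero, one_mul]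
    exact ZD.neg_mem h2

/-- the series -/
def ser : ℕ → Subgroup Gam
  | 0 => ⊥
  | 1 => S1
  | 2 => S2
  | 3 => S3
  | 4 => S4
  | 5 => S5
  | 6 => Gam.kH.ker
  | _ => ⊤

theorem step0 : Step (⊥ : Subgroup Gam) S1 := by
  refine Step.of_hom bot_le (T := Multiplicative ℤ)
    { toFun := fun x => Multiplicative.ofAdd (fl x.1.a)
      map_one' := by
        show Multiplicative.ofAdd (fl 0) = 1
        rw [fl_zero]
        rfl
      map_mul' := fun x y => by
        show Multiplicative.ofAdd (fl (x.1 * y.1).a) = Multiplicative.ofAdd (fl x.1.a + fl y.1.a)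
        rw [Gam.mul_a, y.2.2.1, mul_zero, add_zero, fl_add x.2.2.2.2 y.2.2.2.2] } ?_
    (Or.inl wf_gt_int)
  intro x
  show Multiplicative.ofAdd (fl x.1.a) = 1 ↔ _
  rw [ofAdd_eq_one, fl_eq_zero x.2.2.2.2, Subgroup.mem_bot]
  constructor
  · intro h
    exact Gam.ext x.2.1 h x.2.2.1 x.2.2.2.1
  · intro h
    rw [h]
    rfl

theorem step1 : Step S1 S2 := by
  refine Step.of_hom (fun x hx => ⟨hx.1, hx.2.1, hx.2.2.1⟩) (T := Multiplicative (Dy ⧸ ZD))
    { toFun := fun x => Multiplicative.ofAdd (QuotientAddGroup.mk x.1.a)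
      map_one' := rfl
      map_mul' := fun x y => by
        show Multiplicative.ofAdd (QuotientAddGroup.mk (x.1 * y.1).a) =
          Multiplicative.ofAdd ((QuotientAddGroup.mk x.1.a : Dy ⧸ ZD) + QuotientAddGroup.mk y.1.a)
        rw [Gam.mul_a, y.2.2.1, mul_zero, add_zero, QuotientAddGroup.mk_add] } ?_
    (Or.inr wf_lt_pruefer)
  intro x
  show Multiplicative.ofAdd (QuotientAddGroup.mk x.1.a : Dy ⧸ ZD) = 1 ↔ _
  rw [ofAdd_eq_one, QuotientAddGroup.eq_zero_iff]
  exact ⟨fun h => ⟨x.2.1, x.2.2.1, x.2.2.2, h⟩, fun h => h.2.2.2⟩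

theorem step2 : Step S2 S3 := by
  refine Step.of_hom (fun x hx => ⟨hx.1, hx.2.2, hx.2.1 ▸ ZD.zero_mem⟩) (T := Multiplicative ℤ)
    { toFun := fun x => Multiplicative.ofAdd (fl x.1.b)
      map_one' := by
        show Multiplicative.ofAdd (fl 0) = 1
        rw [fl_zero]
        rfl
      map_mul' := fun x y => by
        show Multiplicative.ofAdd (fl (x.1 * y.1).b) = Multiplicative.ofAdd (fl x.1.b + fl y.1.b)
        rw [Gam.mul_b, x.2.1, tp_zero, one_mul, fl_add y.2.2.2 x.2.2.2, add_comm] } ?_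
    (Or.inl wf_gt_int)
  intro x
  show Multiplicative.ofAdd (fl x.1.b) = 1 ↔ _
  rw [ofAdd_eq_one, fl_eq_zero x.2.2.2]
  exact ⟨fun h => ⟨x.2.1, h, x.2.2.1⟩, fun h => h.2.1⟩

theorem step3 : Step S3 S4 := by
  refine Step.of_hom (fun x hx => ⟨hx.1, hx.2.1⟩) (T := Multiplicative (Dy ⧸ ZD))
    { toFun := fun x => Multiplicative.ofAdd (QuotientAddGroup.mk x.1.b)
      map_one' := rfl
      map_mul' := fun x y => by
        show Multiplicative.ofAdd (QuotientAddGroup.mk (x.1 * y.1).b) =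
          Multiplicative.ofAdd ((QuotientAddGroup.mk x.1.b : Dy ⧸ ZD) + QuotientAddGroup.mk y.1.b)
        rw [Gam.mul_b, x.2.1, tp_zero, one_mul, QuotientAddGroup.mk_add, add_comm] } ?_
    (Or.inr wf_lt_pruefer)
  intro x
  show Multiplicative.ofAdd (QuotientAddGroup.mk x.1.b : Dy ⧸ ZD) = 1 ↔ _
  rw [ofAdd_eq_one, QuotientAddGroup.eq_zero_iff]
  exact ⟨fun h => ⟨x.2.1, x.2.2, h⟩, fun h => h.2.2⟩

theorem step4 : Step S4 S5 := by
  refine Step.of_hom (fun x hx => ⟨hx.1, hx.2 ▸ ZD.zero_mem⟩) (T := Multiplicative ℤ)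
    { toFun := fun x => Multiplicative.ofAdd (fl x.1.c)
      map_one' := by
        show Multiplicative.ofAdd (fl 0) = 1
        rw [fl_zero]
        rfl
      map_mul' := fun x y => by
        show Multiplicative.ofAdd (fl (x.1 * y.1).c) = Multiplicative.ofAdd (fl x.1.c + fl y.1.c)
        rw [Gam.mul_c, y.2.1, tp_zero, one_mul, fl_add y.2.2 x.2.2, add_comm] } ?_
    (Or.inl wf_gt_int)
  intro x
  show Multiplicative.ofAdd (fl x.1.c) = 1 ↔ _
  rw [ofAdd_eq_one, fl_eq_zero x.2.2]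
  exact ⟨fun h => ⟨x.2.1, h⟩, fun h => h.2⟩

theorem step5 : Step S5 Gam.kH.ker := by
  refine Step.of_hom (fun x hx => (Gam.mem_kH x).2 hx.1) (T := Multiplicative (Dy ⧸ ZD))
    { toFun := fun x => Multiplicative.ofAdd (QuotientAddGroup.mk x.1.c)
      map_one' := rfl
      map_mul' := fun x y => by
        show Multiplicative.ofAdd (QuotientAddGroup.mk (x.1 * y.1).c) =
          Multiplicative.ofAdd ((QuotientAddGroup.mk x.1.c : Dy ⧸ ZD) + QuotientAddGroup.mk y.1.c)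
        rw [Gam.mul_c, (Gam.mem_kH _).1 y.2, tp_zero, one_mul, QuotientAddGroup.mk_add,
          add_comm] } ?_
    (Or.inr wf_lt_pruefer)
  intro x
  show Multiplicative.ofAdd (QuotientAddGroup.mk x.1.c : Dy ⧸ ZD) = 1 ↔ _
  rw [ofAdd_eq_one, QuotientAddGroup.eq_zero_iff]
  exact ⟨fun h => ⟨(Gam.mem_kH _).1 x.2, h⟩, fun h => h.2⟩

theorem step6 : Step Gam.kH.ker ⊤ := by
  refine Step.of_hom le_top (T := Multiplicative ℤ) (Gam.kH.comp (⊤ : Subgroup Gam).subtype) ?_
    (Or.inl wf_gt_int)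
  intro x
  rw [MonoidHom.comp_apply, MonoidHom.mem_ker]
  rfl

theorem gam_isMinimax : IsMinimax Gam := by
  refine ⟨7, ser, rfl, rfl, ?_⟩
  intro i hi
  interval_cases i
  · exact step0
  · exact step1
  · exact step2
  · exact step3
  · exact step4
  · exact step5
  · exact step6

end Pool.Agent.WMN.Ins
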