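import Pool.Agent.WMN.InsDefs
import Pool.Agent.WMN.NotMinimax

set_option autoImplicit false

namespace Pool.Agent.WMN.Ins

section

variable {G : Type} [Group G]

/-- one step of a minimax series -/
def Step (A B : Subgroup G) : Prop :=
  A ≤ B ∧ ∃ _ : (A.subgroupOf B).Normal,
      (WellFoundedGT (Subgroup (↥B ⧸ A.subgroupOf B)) ∨
        WellFoundedLT (Subgroup (↥B ⧸ A.subgroupOf B)))

theorem Step.of_hom {A B : Subgroup G} (hAB : A ≤ B) {T : Type} [Group T] (f : ↥B →* T)
    (hf : ∀ x : ↥B, f x = 1 ↔ (x : G) ∈ A)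
    (hT : WellFoundedGT (Subgroup T) ∨ WellFoundedLT (Subgroup T)) : Step A B := by
  have hk : f.ker = A.subgroupOf B := by
    ext x
    rw [MonoidHom.mem_ker, hf, Subgroup.mem_subgroupOf]
  have hn : (A.subgroupOf B).Normal := hk ▸ f.normal_ker
  refine ⟨hAB, hn, ?_⟩
  have hl : ∀ x ∈ A.subgroupOf B, f x = 1 := fun x hx => (hf x).2 (Subgroup.mem_subgroupOf.1 hx)
  let g : ↥B ⧸ A.subgroupOf B →* T := QuotientGroup.lift _ f hl
  have hg : Function.Injective g := by
    rw [injective_iff_map_eq_one]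
    intro x
    induction x using QuotientGroup.induction_on with
    | H z =>
      intro hz
      have h1 : f z = 1 := hz
      rw [QuotientGroup.eq_one_iff, Subgroup.mem_subgroupOf]
      exact (hf z).1 h1
  have hm : StrictMono (fun S : Subgroup (↥B ⧸ A.subgroupOf B) => S.map g) :=
    Monotone.strictMono_of_injective (fun a b hab => Subgroup.map_mono hab)
      (Subgroup.map_injective hg)
  rcases hT with h | h
  · exact Or.inl hm.wellFoundedGT
  · exact Or.inr hm.wellFoundedLT

theorem Step.chain_gt {A B : Subgroup G} (hn : (A.subgroupOf B).Normal)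
    (h : WellFoundedGT (Subgroup (↥B ⧸ A.subgroupOf B))) (f : ℕ → Subgroup G)
    (hf : ∀ k, A ≤ f k ∧ f k ≤ B) (hm : Monotone f) : ∃ m : ℕ, ∀ k : ℕ, m ≤ k → f k = f m := by
  let g : ℕ → Subgroup (↥B ⧸ A.subgroupOf B) := fun k =>
    ((f k).subgroupOf B).map (QuotientGroup.mk' (A.subgroupOf B))
  have hgm : Monotone g := fun a b hab =>
    Subgroup.map_mono (Subgroup.comap_mono (hm hab))
  obtain ⟨n, hnn⟩ := WellFoundedGT.monotone_chain_condition ⟨g, hgm⟩
  refine ⟨n, fun k hk => ?_⟩
  have key : ∀ j, (Subgroup.comap (QuotientGroup.mk' (A.subgroupOf B)) (g j)).map B.subtype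
      = f j := by
    intro j
    show (Subgroup.comap (QuotientGroup.mk' (A.subgroupOf B))
      (((f j).subgroupOf B).map (QuotientGroup.mk' (A.subgroupOf B)))).map B.subtype = f j
    rw [Subgroup.comap_map_eq, QuotientGroup.ker_mk', sup_eq_left.2
      (show A.subgroupOf B ≤ (f j).subgroupOf B from Subgroup.comap_mono (hf j).1),
      Subgroup.subgroupOf_map_subtype, inf_eq_left.2 (hf j).2]
  have h2 : g n = g k := hnn k hk
  rw [← key k, ← key n, h2]

theorem Step.chain_lt {A B : Subgroup G} (hn : (A.subgroupOf B).Normal)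
    (h : WellFoundedLT (Subgroup (↥B ⧸ A.subgroupOf B))) (f : ℕ → Subgroup G)
    (hf : ∀ k, A ≤ f k ∧ f k ≤ B) (hm : Antitone f) : ∃ m : ℕ, ∀ k : ℕ, m ≤ k → f k = f m := by
  let g : ℕ → (Subgroup (↥B ⧸ A.subgroupOf B)) := fun k =>
    ((f k).subgroupOf B).map (QuotientGroup.mk' (A.subgroupOf B))
  have hgm : Antitone g := fun a b hab =>
    Subgroup.map_mono (Subgroup.comap_mono (hm hab))
  obtain ⟨n, hnn⟩ := WellFoundedGT.monotone_chain_condition
    (α := (Subgroup (↥B ⧸ A.subgroupOf B))ᵒᵈ) ⟨fun k => OrderDual.toDual (g k), hgm⟩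
  refine ⟨n, fun k hk => ?_⟩
  have key : ∀ j, (Subgroup.comap (QuotientGroup.mk' (A.subgroupOf B)) (g j)).map B.subtype
      = f j := by
    intro j
    show (Subgroup.comap (QuotientGroup.mk' (A.subgroupOf B))
      (((f j).subgroupOf B).map (QuotientGroup.mk' (A.subgroupOf B)))).map B.subtype = f j
    rw [Subgroup.comap_map_eq, QuotientGroup.ker_mk', sup_eq_left.2
      (show A.subgroupOf B ≤ (f j).subgroupOf B from Subgroup.comap_mono (hf j).1),
      Subgroup.subgroupOf_map_subtype, inf_eq_left.2 (hf j).2]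
  have h2 : g n = g k := OrderDual.toDual.injective (hnn k hk)
  rw [← key k, ← key n, h2]

/-- A minimax group has no divisible torsion-free nontrivial... the negation used below. -/
theorem not_isMinimax {D : Type} [AddCommGroup D] [Nontrivial D]
    (e : Multiplicative D →* G) (he : Function.Injective e)
    (htf : ∀ n : ℕ, 0 < n → ∀ x : D, n • x = 0 → x = 0)
    (hdiv : ∀ n : ℕ, 0 < n → ∀ x : D, ∃ y : D, n • y = x) : ¬ IsMinimax G := by
  rintro ⟨n, H, h0, hn, hs⟩
  refine not_minimax e he htf hdiv ⟨n, H, h0, hn, fun i hi => ?_⟩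
  obtain ⟨h1, h2, h3⟩ := hs i hi
  refine ⟨h1, h2, ?_⟩
  rcases h3 with h | h
  · exact Or.inl (fun f hf hm => Step.chain_gt h2 h f hf hm)
  · exact Or.inr (fun f hf hm => Step.chain_lt h2 h f hf hm)

end

/-- Subgroups of minimax groups are minimax. -/
theorem IsMinimax.of_injective {G K : Type} [Group G] [Group K] (f : G →* K)
    (hf : Function.Injective f) (h : IsMinimax K) : IsMinimax G := by
  obtain ⟨n, H, h0, hn, hs⟩ := h
  refine ⟨n, fun i => (H i).comap f, ?_, ?_, ?_⟩
  · show (H 0).comap f = ⊥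
    rw [h0]
    exact (MonoidHom.ker_eq_bot_iff f).2 hf
  · show (H n).comap f = ⊤
    rw [hn]
    exact Subgroup.comap_top f
  · intro i hi
    obtain ⟨h1, h2, h3⟩ := hs i hi
    have hle : (H i).comap f ≤ (H (i + 1)).comap f := Subgroup.comap_mono h1
    let g : ↥((H (i + 1)).comap f) →* ↥(H (i + 1)) := f.subgroupComap (H (i + 1))
    exact Step.of_hom (A := (H i).comap f) (B := (H (i + 1)).comap f) hle
      ((QuotientGroup.mk' ((H i).subgroupOf (H (i + 1)))).comp g) (by
        intro x
        rw [MonoidHom.comp_apply, QuotientGroup.mk'_apply, QuotientGroup.eq_one_iff,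
          Subgroup.mem_subgroupOf, Subgroup.mem_comap]
        rfl) h3

end Pool.Agent.WMN.Ins
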