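import Pool.Agent.WMN.InsGam
import Pool.Agent.WMN.Semi
import Pool.Agent.WMN.Simple
import Pool.Agent.WMN.Key

set_option autoImplicit false

namespace Pool.Agent.WMN.Ins

open Pool.Agent.WMN

/-- the three generators -/
def gk : Gam := ⟨1, 0, 0, 0⟩
def gb : Gam := ⟨0, 0, 1, 0⟩
def gc : Gam := ⟨0, 0, 0, 1⟩

def tk (n : ℤ) : Gam := ⟨n, 0, 0, 0⟩
def eB (q : Dy) : Gam := ⟨0, 0, q, 0⟩
def eC (q : Dy) : Gam := ⟨0, 0, 0, q⟩
def eA (q : Dy) : Gam := ⟨0, q, 0, 0⟩

theorem tk_mul (m n : ℤ) : tk m * tk n = tk (m + n) := by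
  ext <;> simp [tk]

theorem eB_mul (p q : Dy) : eB p * eB q = eB (p + q) := by
  ext <;> simp [eB, add_comm]

theorem eC_mul (p q : Dy) : eC p * eC q = eC (p + q) := by
  ext <;> simp [eC, add_comm]

def tkH : Multiplicative ℤ →* Gam where
  toFun n := tk n.toAdd
  map_one' := rfl
  map_mul' m n := (tk_mul _ _).symm

def eBH : Multiplicative Dy →* Gam where
  toFun q := eB q.toAdd
  map_one' := rfl
  map_mul' p q := (eB_mul _ _).symm

def eCH : Multiplicative Dy →* Gam where
  toFun q := eC q.toAdd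
  map_one' := rfl
  map_mul' p q := (eC_mul _ _).symm

theorem conjB (n : ℤ) (q : Dy) : tk n * eB q * tk (-n) = eB (tp n * q) := by
  ext <;> simp [tk, eB]

theorem conjC (n : ℤ) (q : Dy) : tk (-n) * eC q * tk n = eC (tp n * q) := by
  ext <;> simp [tk, eC]

theorem comm_eq (q : Dy) : eC q * eB 1 * (eB 1 * eC q)⁻¹ = eA q := by
  rw [mul_inv_eq_iff_eq_mul]
  ext <;> simp [eA, eB, eC]

theorem decomp (x : Gam) : x = eA x.a * (eB x.b * (tk x.k * eC x.c)) := by
  ext <;> simp [eA, eB, eC, tk]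

theorem gam_closure : Subgroup.closure ({gk, gb, gc} : Set Gam) = ⊤ := by
  rw [eq_top_iff]
  intro x _
  set K := Subgroup.closure ({gk, gb, gc} : Set Gam) with hK
  have h1 : gk ∈ K := Subgroup.subset_closure (by simp)
  have h2 : gb ∈ K := Subgroup.subset_closure (by simp)
  have h3 : gc ∈ K := Subgroup.subset_closure (by simp)
  have ht : ∀ n : ℤ, tk n ∈ K := by
    intro n
    have : tk n = gk ^ n := by
      have h := map_zpow tkH (Multiplicative.ofAdd (1 : ℤ)) n
      have h' : (Multiplicative.ofAdd (1 : ℤ)) ^ n = Multiplicative.ofAdd n := by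
        rw [← ofAdd_zsmul, smul_eq_mul, mul_one]
      rw [h'] at h
      exact h
    rw [this]
    exact K.zpow_mem h1 n
  have hB : ∀ q : Dy, eB q ∈ K := by
    intro q
    obtain ⟨z, n, rfl⟩ := exists_dq q
    have e1 : eB (tp (-(n : ℤ))) ∈ K := by
      have := conjB (-(n : ℤ)) 1
      rw [mul_one] at this
      rw [← this]
      exact K.mul_mem (K.mul_mem (ht _) h2) (ht _)
    have e2 : eB (dq z n) = eB (tp (-(n : ℤ))) ^ z := by
      have h := map_zpow eBH (Multiplicative.ofAdd (tp (-(n : ℤ)))) z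
      rw [← ofAdd_zsmul, zsmul_eq_mul] at h
      exact h
    rw [e2]
    exact K.zpow_mem e1 z
  have hC : ∀ q : Dy, eC q ∈ K := by
    intro q
    obtain ⟨z, n, rfl⟩ := exists_dq q
    have e1 : eC (tp (-(n : ℤ))) ∈ K := by
      have := conjC (-(n : ℤ)) 1
      rw [mul_one] at this
      rw [← this]
      exact K.mul_mem (K.mul_mem (ht _) h3) (ht _)
    have e2 : eC (dq z n) = eC (tp (-(n : ℤ))) ^ z := by
      have h := map_zpow eCH (Multiplicative.ofAdd (tp (-(n : ℤ)))) z
      rw [← ofAdd_zsmul, zsmul_eq_mul] at h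
      exact h
    rw [e2]
    exact K.zpow_mem e1 z
  have hA : ∀ q : Dy, eA q ∈ K := by
    intro q
    rw [← comm_eq]
    exact K.mul_mem (K.mul_mem (hC q) h2) (K.inv_mem (K.mul_mem h2 (hC q)))
  rw [decomp x]
  exact K.mul_mem (hA _) (K.mul_mem (hB _) (K.mul_mem (ht _) (hC _)))

theorem gam_derived : derivedSeries Gam 3 = ⊥ := by
  have d1 : derivedSeries Gam 1 ≤ Gam.kH.ker := by
    rw [derivedSeries_succ, derivedSeries_zero]
    exact Abelianization.commutator_subset_ker Gam.kH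
  have d2 : derivedSeries Gam 2 ≤ S2 := by
    rw [derivedSeries_succ]
    refine (Subgroup.commutator_mono d1 d1).trans ?_
    rw [Subgroup.commutator_le]
    intro x hx y hy
    have hx0 : x.k = 0 := hx
    have hy0 : y.k = 0 := hy
    refine ⟨?_, ?_, ?_⟩
    · simp [commutatorElement_def, hx0, hy0]
    · simp [commutatorElement_def, hx0, hy0]
    · simp [commutatorElement_def, hx0, hy0]
  have d3 : derivedSeries Gam 3 ≤ ⊥ := by
    rw [derivedSeries_succ]
    refine (Subgroup.commutator_mono d2 d2).trans ?_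
    rw [Subgroup.commutator_le]
    rintro x ⟨hx1, hx2, hx3⟩ y ⟨hy1, hy2, hy3⟩
    rw [Subgroup.mem_bot, commutatorElement_def]
    ext
    · simp [hx1, hy1]
    · simp [hx1, hy1, hx2, hy2, hx3, hy3]
    · simp [hx1, hy1, hx2, hy2]
    · simp [hx1, hy1, hx3, hy3]
  exact le_bot_iff.1 d3

end Pool.Agent.WMN.Ins
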